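import Pool.Agent.Run7.h709.AC.Ex
import Pool.Agent.R782.Bal.Main

/-!
# The class `AC`: coloured subdivisions without monochromatic triangles
-/

set_option autoImplicit false
set_option linter.unusedSectionVars false

noncomputable section

namespace Run7.h709.AC

open Pool.Agent.W907.SG Pool.Agent.R782.Bal
open Pool.Agent.N496.CV (MidL)

variable {N d : ℕ} {X : Finset (Finset (Fin N))} {col : Fin N → Fin (d + 1)}

/-- the colourwise subdivision of a complex without monochromatic triangles subdivides the monochromatic edges -/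
theorem midL_cs (hX : ∀ σ ∈ X, ∀ τ : Finset (Fin N), τ ⊆ σ → τ ∈ X)
    (ht : ∀ σ ∈ X, (∀ v ∈ σ, ∀ w ∈ σ, col v = col w) → σ.card ≤ 2) :
    MidL (cs X col) (fun σ => (mc σ : ℕ)) {σ | σ.1.card = 1} Set.univ := by
  classical
  refine ⟨fun σ _ hσ τ _ hτ h e => ?_, fun σ _ hσ => ?_⟩
  · have e' : mc σ = mc τ := Fin.ext e
    have h1 : σ.1.card = 1 := hσ
    have h2 : τ.1.card = 1 := hτ
    have h3 : σ.1 = τ.1 := by
      rcases h.2.2 fun v hv w hw => by rw [mc_eq σ hv, mc_eq τ hw, e'] with h4 | h4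
      · exact Finset.eq_of_subset_of_card_le h4 (by omega)
      · exact (Finset.eq_of_subset_of_card_le h4 (by omega)).symm
    exact h.1 (Subtype.ext h3)
  · have h1 : σ.1.card = 2 := by
      have h2 := ht σ.1 σ.2.1 σ.2.2.2
      have h3 := Finset.card_pos.2 σ.2.2.1
      have h4 : ¬ σ.1.card = 1 := hσ
      omega
    obtain ⟨a, b, hab, hσab⟩ := Finset.card_eq_two.1 h1
    have ha : a ∈ σ.1 := by rw [hσab]; simp
    have hb : b ∈ σ.1 := by rw [hσab]; simp
    have hmk : ∀ c ∈ σ.1, ({c} : Finset (Fin N)) ∈ X := fun c hc =>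
      hX σ.1 σ.2.1 _ (Finset.singleton_subset_iff.2 hc)
    obtain ⟨s, hs⟩ : ∃ s : MF X col, s.1 = {a} := ⟨⟨{a}, hmk a ha, Finset.singleton_nonempty a, by simp⟩, rfl⟩
    obtain ⟨t, ht'⟩ : ∃ t : MF X col, t.1 = {b} := ⟨⟨{b}, hmk b hb, Finset.singleton_nonempty b, by simp⟩, rfl⟩
    have hsσ : s.1 ⊆ σ.1 := by rw [hs]; exact Finset.singleton_subset_iff.2 ha
    have htσ : t.1 ⊆ σ.1 := by rw [ht']; exact Finset.singleton_subset_iff.2 hb
    have hms : mc s = mc σ := by
      have h5 : a ∈ s.1 := by rw [hs]; simp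
      rw [← mc_eq s h5, ← mc_eq σ ha]
    have hmt : mc t = mc σ := by
      have h5 : b ∈ t.1 := by rw [ht']; simp
      rw [← mc_eq t h5, ← mc_eq σ hb]
    have hne1 : s ≠ σ := fun e => by rw [← e, hs] at h1; simp at h1
    have hne2 : t ≠ σ := fun e => by rw [← e, ht'] at h1; simp at h1
    have hst : s ≠ t := fun e => by
      have h5 : s.1 = t.1 := congrArg Subtype.val e
      rw [hs, ht', Finset.singleton_inj] at h5
      exact hab h5
    have adj_sub : ∀ τ ρ : MF X col, τ ≠ ρ → τ.1 ⊆ ρ.1 → (cs X col).Adj ρ τ := by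
      intro τ ρ hne hsub
      refine ⟨hne.symm, ?_, fun _ => Or.inr hsub⟩
      rw [Finset.union_eq_left.2 hsub]
      exact ρ.2.1
    refine ⟨s, trivial, by rw [Set.mem_ofPred_eq, hs]; simp, t, trivial, by rw [Set.mem_ofPred_eq, ht']; simp, hst, ?_,
      adj_sub s σ hne1 hsσ, adj_sub t σ hne2 htσ, congrArg Fin.val hms, congrArg Fin.val hmt, ?_⟩
    · intro h
      rcases h.2.2 fun v hv w hw => by rw [mc_eq s hv, mc_eq t hw, hms, hmt] with h4 | h4
      · rw [hs, ht', Finset.singleton_subset_iff, Finset.mem_singleton] at h4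
        exact hab h4
      · rw [hs, ht', Finset.singleton_subset_iff, Finset.mem_singleton] at h4
        exact hab h4.symm
    · intro u _ hu hus hut
      have hcol : mc u ≠ mc σ := by
        intro e
        rcases hu.2.2 fun v hv w hw => by rw [mc_eq σ hv, mc_eq u hw, e] with h4 | h4
        · have h5 : u.1.card ≤ 2 := ht u.1 u.2.1 u.2.2.2
          exact hu.1 (Subtype.ext (Finset.eq_of_subset_of_card_le h4 (by omega)))
        · have h5 : u.1.card ≠ 2 := fun h6 => hu.1 (Subtype.ext (Finset.eq_of_subset_of_card_le h4 (by omega)).symm)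
          have h6 := Finset.card_pos.2 u.2.2.1
          have h7 := Finset.card_le_card h4
          have h8 : u.1.card = 1 := by omega
          obtain ⟨c, hc⟩ := Finset.card_eq_one.1 h8
          rw [hc, Finset.singleton_subset_iff, hσab, Finset.mem_insert, Finset.mem_singleton] at h4
          rcases h4 with rfl | rfl
          · exact hus (Subtype.ext (by rw [hc, hs]))
          · exact hut (Subtype.ext (by rw [hc, ht']))
      have hun : ∀ τ : MF X col, τ.1 ⊆ σ.1 → mc τ = mc σ → (cs X col).Adj u τ := by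
        intro τ hτ hm
        refine ⟨fun e => hcol (by rw [e, hm]), hX _ hu.2.1 _ ?_, fun h => ?_⟩
        · rw [Finset.union_comm]
          exact Finset.union_subset_union_left hτ
        · exfalso
          obtain ⟨x, hx⟩ := u.2.2.1
          obtain ⟨y, hy⟩ := τ.2.2.1
          have h5 := h x hx y hy
          rw [mc_eq u hx, mc_eq τ hy, hm] at h5
          exact hcol h5
      exact ⟨hun s hsσ hms, hun t htσ hmt, fun e => hcol (Fin.ext e)⟩

/-- coloured subdivisions without monochromatic triangles in the sphere of dimension `2 d` -/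
theorem ac_cs (hX : ∀ σ ∈ X, ∀ τ : Finset (Fin N), τ ⊆ σ → τ ∈ X)
    (ht : ∀ σ ∈ X, (∀ v ∈ σ, ∀ w ∈ σ, col v = col w) → σ.card ≤ 2) (hE : EmbX d X col) :
    AC (cs X col) (d + 1) Set.univ := by
  haveI : Finite (MF X col) := by
    unfold MF
    infer_instance
  exact ac_col mc {σ | σ.1.card = 1} (midL_cs hX ht) (hE.emb hX)

end Run7.h709.AC
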