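import Pool.Agent.Run7.h709.AC.Bary2

/-!
# The class `AC`: barycentric subdivisions of complexes in the four-dimensional sphere
-/

set_option autoImplicit false
set_option linter.unusedSectionVars false

noncomputable section

namespace Run7.h709.AC

open Pool.Agent.W907.SG Pool.Agent.W907.SM Pool.Agent.R782.Bal
open Pool.Agent.W555.KS Pool.Agent.N504.RS
open Pool.Agent.N496.CV (MidL)
open Pool.Agent.TH652.Above (lv_set lv_sub lv_univ)

/-- three points are not a subset of the zero-dimensional sphere -/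
theorem obs_three (h : Obs (⊥ : SimpleGraph (Fin 3)) 2) : False := by
  classical
  have h1 := h 3 (Equiv.refl _) (ZMod 2) (fun σ τ => if σ.card = 1 ∧ τ.card = 1 ∧ σ ≠ τ then 1 else 0) ?_ ?_ ?_
  · revert h1
    decide
  · intro σ τ
    have e : (σ.card = 1 ∧ τ.card = 1 ∧ σ ≠ τ) ↔ (τ.card = 1 ∧ σ.card = 1 ∧ τ ≠ σ) :=
      ⟨fun h => ⟨h.2.1, h.1, h.2.2.symm⟩, fun h => ⟨h.2.1, h.1, h.2.2.symm⟩⟩
    simp only [e]
  · intro σ τ hne
    have h2 : σ.card = 1 ∧ τ.card = 1 ∧ σ ≠ τ := by
      by_contra h3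
      exact hne (if_neg h3)
    have key : ∀ ρ : Finset (Fin 3), ρ.card = 1 → ρ ∈ clF (⊥ : SimpleGraph (Fin 3)) (Equiv.refl (Fin 3)) := by
      intro ρ hρ
      obtain ⟨a, rfl⟩ := Finset.card_eq_one.1 hρ
      rw [mem_clF]
      intro x hx y hy hxy
      simp only [Finset.map_singleton, Finset.coe_singleton, Set.mem_singleton_iff] at hx hy
      exact absurd (hx.trans hy.symm) hxy
    exact ⟨key σ h2.1, key τ h2.2.1⟩
  · decide

variable {V : Type} [Finite V] {G : SimpleGraph V}

/-- sets in the zero-dimensional sphere have at most two elements -/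
theorem obs_two (h : Obs G 2) (u v w : V) (huv : u ≠ v) (huw : u ≠ w) (hvw : v ≠ w) : False := by
  refine obs_three (obs_mono h ⟨fun i : Fin 3 => if i = 0 then u else if i = 1 then v else w, ?_⟩ fun a b hab => ?_)
  · intro a b hab
    fin_cases a <;> fin_cases b <;> simp_all
  · exact absurd hab (by simp)

/-- iterated links -/
theorem obs_list (l : List V) (hl : l.Pairwise G.Adj) : ∀ (D : ℕ), Obs G (D + l.length) →
    Obs (G.induce {x | ∀ v ∈ l, G.Adj v x}) D := by
  classical
  induction l with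
  | nil =>
    intro D h
    exact obs_mono h (Function.Embedding.subtype _) fun a b hab => hab
  | cons v l ih =>
    intro D h
    rw [List.pairwise_cons] at hl
    have h1 := ih hl.2 (D + 1) (by
      have e : D + 1 + l.length = D + (v :: l).length := by
        rw [List.length_cons]
        omega
      rw [e]
      exact h)
    refine obs_link h1 ⟨fun x => ⟨x.1, fun w hw => x.2 w (List.mem_cons_of_mem _ hw)⟩, fun a b hab => Subtype.ext (by
      have := congrArg Subtype.val hab
      exact this)⟩ ⟨v, fun w hw => (hl.1 w hw).symm⟩ (fun a b hab => hab) fun a => a.2 v List.mem_cons_self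

variable {N n : ℕ} {X : Finset (Finset (Fin N))} {col : Fin N → Fin n}

/-- the suspension of the boundary of the tetrahedron -/
theorem ac_four_two (hX : ∀ σ ∈ X, ∀ τ : Finset (Fin N), τ ⊆ σ → τ ∈ X) (σ : MF X col) (hσ : σ.1.card = 4)
    (R : Set (MF X col)) (hj : ∀ x ∈ Lo σ, ∀ y ∈ R, (cs X col).Adj x y)
    (hR : ∀ u ∈ R, ∀ v ∈ R, ∀ w ∈ R, u ≠ v → u ≠ w → v ≠ w → False) : AC (cs X col) 2 (Lo σ ∪ R) := by
  classical
  have h0 : AC (cs X col) 2 (Lo σ) := by
    have h1 := ac_four hX σ hσ (r := 0) (R := ∅) (SC.base ∅ fun T _ hT => by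
      rw [Set.subset_empty_iff, Finset.coe_eq_empty] at hT
      rw [hT, Finset.card_empty]) (fun x _ y hy => absurd hy (Set.notMem_empty y))
    rw [Set.union_empty] at h1
    exact h1
  rcases R.eq_empty_or_nonempty with rfl | ⟨u, hu⟩
  · rw [Set.union_empty]
    exact h0
  · by_cases h1 : ∃ w ∈ R, w ≠ u
    · obtain ⟨w, hw, hwu⟩ := h1
      have e : Lo σ ∪ R = insert u (insert w (Lo σ)) := by
        ext x
        simp only [Set.mem_union, Set.mem_insert_iff]
        constructor
        · rintro (h | h)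
          · exact Or.inr (Or.inr h)
          · by_contra h2
            push Not at h2
            exact hR x h u hu w hw h2.1 h2.2.1 hwu.symm
        · rintro (h | h | h)
          · rw [h]; exact Or.inr hu
          · rw [h]; exact Or.inr hw
          · exact Or.inl h
      rw [e]
      by_cases h3 : (cs X col).Adj u w
      · refine AC.cone _ u (fun x hx => ?_) (AC.cone _ w (fun x hx => (hj x hx w hw).symm) h0)
        rcases hx with hx | hx
        · rw [hx]; exact h3
        · exact (hj x hx u hu).symm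
      · exact AC.susp _ u w hwu.symm h3 (fun x hx => ⟨(hj x hx u hu).symm, (hj x hx w hw).symm⟩) h0
    · have e : Lo σ ∪ R = insert u (Lo σ) := by
        ext x
        simp only [Set.mem_union, Set.mem_insert_iff]
        constructor
        · rintro (h | h)
          · exact Or.inr h
          · by_contra h2
            push Not at h2
            exact h1 ⟨x, h, h2.1⟩
        · rintro (h | h)
          · rw [h]; exact Or.inr hu
          · exact Or.inl h
      rw [e]
      exact AC.cone _ u (fun x hx => (hj x hx u hu).symm) h0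

/-- subsets of a given cardinality -/
theorem exists_chain (hX : ∀ σ ∈ X, ∀ τ : Finset (Fin N), τ ⊆ σ → τ ∈ X) (σ : MF X col) (m : ℕ)
    (hm : σ.1.card = m + 2) : ∃ τ : MF X col, τ.1 ⊂ σ.1 ∧ τ.1.card = m + 1 := by
  obtain ⟨ρ, h1, h2⟩ := Finset.exists_subset_card_eq (s := σ.1) (n := m + 1) (by omega)
  obtain ⟨τ, hτ⟩ := exists_sub hX σ ρ h1 (Finset.card_pos.1 (by omega))
  refine ⟨τ, ?_, by rw [hτ, h2]⟩
  rw [hτ]
  exact Finset.ssubset_iff_subset_ne.2 ⟨h1, fun e => by rw [e] at h2; omega⟩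

/-- **colourwise barycentric subdivisions of complexes in spheres of dimension at most four** -/
theorem ac_bary_emb (hX : ∀ σ ∈ X, ∀ τ : Finset (Fin N), τ ⊆ σ → τ ∈ X) (a : Fin n → ℕ) (d : ℕ) (hd : d ≤ 2)
    (hsum : ∑ c, a c ≤ d + 1) (ha : ∀ σ ∈ X, ∀ c, (∀ v ∈ σ, col v = c) → σ.card ≤ 2 * a c)
    (hdim : ∀ σ ∈ X, σ.card ≤ 2 * d + 1) (hO : Obs (cs X col) (2 * (d + 1))) :
    AC (cs X col) (d + 1) Set.univ := by
  classical
  have hsz : ∀ τ : MF X col, τ.1.card ≤ 2 * a (mc τ) := fun τ => ha τ.1 τ.2.1 _ fun v hv => mc_eq τ hv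
  have hd5 : ∀ τ : MF X col, τ.1.card ≤ 2 * d + 1 := fun τ => hdim τ.1 τ.2.1
  -- the case of no vertices
  rcases isEmpty_or_nonempty (MF X col) with hE | ⟨⟨τ0⟩⟩
  · refine AC.small _ (by omega) fun T _ _ => ?_
    have : T = ∅ := Finset.eq_empty_of_isEmpty T
    rw [this, Finset.card_empty]
    omega
  -- the special colour
  obtain ⟨c0, hc0⟩ : ∃ c0 : Fin n, ∀ c, c ≠ c0 → a c ≤ 1 := by
    obtain ⟨c0, -, hmax⟩ := Finset.exists_max_image Finset.univ a ⟨mc τ0, Finset.mem_univ _⟩
    refine ⟨c0, fun c hc => ?_⟩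
    by_contra h
    have h1 := hmax c (Finset.mem_univ c)
    have h2 : a c0 + a c ≤ ∑ c, a c := by
      rw [← Finset.add_sum_erase _ _ (Finset.mem_univ c0)]
      exact Nat.add_le_add_left (Finset.single_le_sum (f := a) (fun _ _ => Nat.zero_le _)
        (Finset.mem_erase.2 ⟨hc, Finset.mem_univ c⟩)) _
    omega
  -- the colours
  obtain ⟨F, hF⟩ : ∃ F : Finset ℕ, F = Finset.range (a c0) ∪
    (Finset.univ.filter (fun c : Fin n => c ≠ c0 ∧ 1 ≤ a c)).image (fun c : Fin n => 3 + (c : ℕ)) := ⟨_, rfl⟩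
  have hFc : F.card ≤ d + 1 := by
    refine le_trans ?_ hsum
    rw [hF]
    refine (Finset.card_union_le _ _).trans ?_
    rw [Finset.card_range, ← Finset.add_sum_erase _ _ (Finset.mem_univ c0)]
    refine Nat.add_le_add_left (Finset.card_image_le.trans ?_) _
    rw [Finset.card_eq_sum_ones]
    refine (Finset.sum_le_sum (g := fun c => a c) fun c hc => (Finset.mem_filter.1 hc).2.2).trans ?_
    refine Finset.sum_le_sum_of_subset fun c hc => ?_
    exact Finset.mem_erase.2 ⟨(Finset.mem_filter.1 hc).2.1, Finset.mem_univ c⟩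
  have hκF : ∀ τ : MF X col, kap c0 τ ∈ F := by
    intro τ
    have k1 := hsz τ
    have k2 := card_pos' τ
    rw [hF, Finset.mem_union, Finset.mem_range, Finset.mem_image]
    unfold kap
    by_cases c1 : mc τ = c0
    · left
      rw [if_pos c1]
      rw [c1] at k1
      omega
    · right
      rw [if_neg c1]
      exact ⟨mc τ, Finset.mem_filter.2 ⟨Finset.mem_univ _, c1, by omega⟩, rfl⟩
  obtain ⟨F', hFF', hF'⟩ := Infinite.exists_superset_card_eq F (d + 1) hFc
  -- the small faces
  obtain ⟨L, hL⟩ : ∃ L : Set (MF X col), L = {τ | τ.1.card = 1 ∨ τ.1.card = 2 ∨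
    (mc τ = c0 ∧ (τ.1.card = 3 ∨ τ.1.card = 5))} := ⟨_, rfl⟩
  have hL' : ∀ τ, τ ∈ L ↔ τ.1.card = 1 ∨ τ.1.card = 2 ∨ (mc τ = c0 ∧ (τ.1.card = 3 ∨ τ.1.card = 5)) := fun τ => by
    rw [hL]; rfl
  have hlow : ∀ τ ρ : MF X col, ρ.1.card = 2 → τ.1 ⊂ ρ.1 → τ.1.card = 1 := by
    intro τ ρ h2 h3
    have := Finset.card_lt_card h3
    have := card_pos' τ
    omega
  have s0 : AC (cs X col) (d + 1) L := by
    refine ac_mid (kap c0) {τ | τ.1.card ≠ 2} (d + 1) L F' hF' (fun v _ => hFF' (hκF v)) (midL_gen hX c0 L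
      (fun τ hτ => (hL' τ).1 hτ) fun τ _ h2 s hs => (hL' s).2 (Or.inl (hlow s τ h2 hs))) ?_ L Set.Subset.rfl
    exact obs_mono hO (Function.Embedding.subtype _) fun a b hab => hab
  -- the faces of the special colour with four vertices
  have s1 := add_all (G := cs X col) L s0 {τ | mc τ = c0 ∧ τ.1.card = 4} ?_ ?_ ?_
  · have e : L ∪ {τ | mc τ = c0 ∧ τ.1.card = 4} = Set.univ := by
      ext τ
      refine iff_of_true ?_ trivial
      have k1 := hsz τ
      have k2 := card_pos' τ
      have k0 := hd5 τ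
      by_cases c1 : mc τ = c0
      · rw [c1] at k1
        by_cases k4 : τ.1.card = 4
        · exact Or.inr ⟨c1, k4⟩
        · refine Or.inl ((hL' τ).2 ?_)
          by_cases k5 : τ.1.card ≤ 2
          · rcases Nat.lt_or_ge τ.1.card 2 with k6 | k6
            · exact Or.inl (by omega)
            · exact Or.inr (Or.inl (by omega))
          · exact Or.inr (Or.inr ⟨c1, by omega⟩)
      · have k3 := hc0 _ c1
        refine Or.inl ((hL' τ).2 ?_)
        rcases Nat.lt_or_ge τ.1.card 2 with k6 | k6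
        · exact Or.inl (by omega)
        · exact Or.inr (Or.inl (by omega))
    rw [e] at s1
    exact s1
  · rintro τ ⟨k1, k2⟩ k3
    rw [hL'] at k3
    omega
  · rintro τ ⟨k1, k2⟩ ρ ⟨k3, k4⟩ h
    exact adj_card (by rw [k1, k3]) h (by rw [k2, k4])
  · rintro σ ⟨k1, k2⟩
    have k0 := hd5 σ
    have hd2 : d = 2 := by omega
    subst hd2
    obtain ⟨R, hR⟩ : ∃ R : Set (MF X col), R = {τ | (cs X col).Adj σ τ ∧ (τ.1.card = 5 ∨ mc τ ≠ c0)} := ⟨_, rfl⟩
    have hR' : ∀ τ, τ ∈ R ↔ (cs X col).Adj σ τ ∧ (τ.1.card = 5 ∨ mc τ ≠ c0) := fun τ => by rw [hR]; rfl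
    have hR5 : ∀ τ ∈ R, τ.1.card = 5 → mc τ = c0 := by
      intro τ _ h5
      by_contra h6
      have := hc0 _ h6
      have := hsz τ
      omega
    have hj : ∀ x ∈ Lo σ, ∀ y ∈ R, (cs X col).Adj x y := by
      intro x hx y hy
      obtain ⟨k5, k6⟩ := (hR' y).1 hy
      by_cases c1 : mc y = c0
      · rcases (adj_iff (by rw [k1, c1])).1 k5 with h7 | h7
        · exact adj_of_ssub ((mem_Lo.1 hx).trans h7)
        · have h8 := Finset.card_lt_card h7
          have h9 : y.1.card = 5 := k6.resolve_right (fun h => h c1)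
          omega
      · exact (adj_sub hX (mem_Lo.1 hx).subset k5.symm (by rw [k1]; exact c1)).symm
    -- at most two further vertices in the link
    obtain ⟨ρ3, h31, h32⟩ := exists_chain hX σ 2 (by omega)
    obtain ⟨ρ2, h21, h22⟩ := exists_chain hX ρ3 1 (by omega)
    obtain ⟨ρ1, h11, h12⟩ := exists_chain hX ρ2 0 (by omega)
    have hobs := obs_list (G := cs X col) [ρ1, ρ2, ρ3, σ] (by
      simp only [List.pairwise_cons, List.mem_cons, List.not_mem_nil, or_false, forall_eq_or_imp, forall_eq,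
        List.Pairwise.nil, and_true, IsEmpty.forall_iff, implies_true]
      exact ⟨⟨adj_of_ssub h11, adj_of_ssub (h11.trans h21), adj_of_ssub ((h11.trans h21).trans h31)⟩,
        ⟨adj_of_ssub h21, adj_of_ssub (h21.trans h31)⟩, adj_of_ssub h31⟩) 2 hO
    have hRin : ∀ x ∈ R, ∀ v ∈ [ρ1, ρ2, ρ3, σ], (cs X col).Adj v x := by
      intro x hx v hv
      simp only [List.mem_cons, List.not_mem_nil, or_false] at hv
      rcases hv with rfl | rfl | rfl | rfl
      · exact hj _ ((h11.trans h21).trans h31) x hx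
      · exact hj _ (h21.trans h31) x hx
      · exact hj _ h31 x hx
      · exact ((hR' x).1 hx).1
    have h6 := ac_four_two hX σ k2 R hj (by
      intro u hu v hv w hw huv huw hvw
      exact obs_two hobs ⟨u, hRin u hu⟩ ⟨v, hRin v hv⟩ ⟨w, hRin w hw⟩ (fun e => huv (congrArg Subtype.val e))
        (fun e => huw (congrArg Subtype.val e)) fun e => hvw (congrArg Subtype.val e))
    have e : L ∩ (cs X col).neighborSet σ = Lo σ ∪ R := by
      ext τ
      constructor
      · rintro ⟨h5, h6⟩
        rw [hL'] at h5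
        by_cases c1 : mc τ = c0
        · rcases (adj_iff (by rw [k1, c1])).1 h6 with h7 | h7
          · have h8 := Finset.card_lt_card h7
            exact Or.inr ((hR' τ).2 ⟨h6, Or.inl (by omega)⟩)
          · exact Or.inl h7
        · exact Or.inr ((hR' τ).2 ⟨h6, Or.inr c1⟩)
      · rintro (h5 | h5)
        · refine ⟨(hL' τ).2 ?_, (adj_of_ssub (mem_Lo.1 h5)).symm⟩
          have h8 := Finset.card_lt_card (mem_Lo.1 h5)
          have h9 := card_pos' τ
          have c1 : mc τ = c0 := (mc_ssub (mem_Lo.1 h5)).trans k1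
          by_cases k5 : τ.1.card ≤ 2
          · rcases Nat.lt_or_ge τ.1.card 2 with k6 | k6
            · exact Or.inl (by omega)
            · exact Or.inr (Or.inl (by omega))
          · exact Or.inr (Or.inr ⟨c1, by omega⟩)
        · obtain ⟨k5, k6⟩ := (hR' τ).1 h5
          refine ⟨(hL' τ).2 ?_, k5⟩
          rcases k6 with k6 | k6
          · exact Or.inr (Or.inr ⟨hR5 τ h5 k6, Or.inr k6⟩)
          · have k7 := hc0 _ k6
            have k8 := hsz τ
            have k9 := card_pos' τ
            omega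
    rw [e]
    exact h6

end Run7.h709.AC
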