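import Pool.Agent.Run7.h709.AC.Sc

/-!
# The class `AC`: barycentric and colourwise barycentric subdivisions
-/

set_option autoImplicit false
set_option linter.unusedSectionVars false

noncomputable section

namespace Run7.h709.AC

open Pool.Agent.W907.SG Pool.Agent.W907.SM Pool.Agent.R782.Bal
open Pool.Agent.N496.CV (MidL)
open Pool.Agent.TH652.Above (lv_set lv_sub lv_univ)

variable {N n : ℕ} {X : Finset (Finset (Fin N))} {col : Fin N → Fin n}

/-- the elements of odd cardinality between `B` and `σ` -/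
def Od (B : Finset (Fin N)) (σ : MF X col) : Set (MF X col) := {τ | B ⊂ τ.1 ∧ τ.1 ⊂ σ.1 ∧ Odd τ.1.card}

theorem mc_ssub {σ τ : MF X col} (h : τ.1 ⊂ σ.1) : mc τ = mc σ := mc_of_sub h.subset

theorem adj_iff {σ τ : MF X col} (h : mc σ = mc τ) : (cs X col).Adj σ τ ↔ σ.1 ⊂ τ.1 ∨ τ.1 ⊂ σ.1 :=
  ⟨fun h1 => comp h1 h, fun h1 => h1.elim adj_of_ssub fun h2 => (adj_of_ssub h2).symm⟩

theorem adj_card {σ τ : MF X col} (h : mc σ = mc τ) (h1 : (cs X col).Adj σ τ) : σ.1.card ≠ τ.1.card := by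
  rcases (adj_iff h).1 h1 with h2 | h2
  · exact (Finset.card_lt_card h2).ne
  · exact (Finset.card_lt_card h2).ne'

/-- a subface is adjacent to the same faces of the other colours -/
theorem adj_sub (hX : ∀ σ ∈ X, ∀ τ : Finset (Fin N), τ ⊆ σ → τ ∈ X) {σ τ u : MF X col} (h : τ.1 ⊆ σ.1)
    (hu : (cs X col).Adj u σ) (hc : mc u ≠ mc σ) : (cs X col).Adj u τ := by
  have hm : mc τ = mc σ := mc_of_sub h
  refine ⟨fun e => hc (by rw [e, hm]), hX _ hu.2.1 _ (Finset.union_subset_union_right h), fun h2 => ?_⟩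
  exfalso
  obtain ⟨x, hx⟩ := u.2.2.1
  obtain ⟨y, hy⟩ := τ.2.2.1
  have h5 := h2 x hx y hy
  rw [mc_eq u hx, mc_eq τ hy, hm] at h5
  exact hc h5

/-- cliques in the odd part -/
theorem od_card (B : Finset (Fin N)) (σ : MF X col) (hσ : Even σ.1.card) (hB : Even B.card) (T : Finset (MF X col))
    (hT : (cs X col).IsClique (T : Set (MF X col))) (hTB : (T : Set (MF X col)) ⊆ Od B σ) :
    T.card ≤ σ.1.card / 2 - B.card / 2 := by
  classical
  rw [← Nat.card_Ico]
  refine Finset.card_le_card_of_injOn (fun τ => τ.1.card / 2) (fun τ hτ => ?_) ?_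
  · obtain ⟨h1, h2, h3⟩ := hTB hτ
    have h4 := Finset.card_lt_card h1
    have h5 := Finset.card_lt_card h2
    rw [Nat.odd_iff] at h3
    rw [Nat.even_iff] at hσ hB
    refine Finset.mem_coe.2 (Finset.mem_Ico.2 ⟨?_, ?_⟩)
    · show B.card / 2 ≤ τ.1.card / 2
      omega
    · show τ.1.card / 2 < σ.1.card / 2
      omega
  · intro τ hτ ρ hρ h
    by_contra hne
    obtain ⟨h1, h2, h3⟩ := hTB hτ
    obtain ⟨k1, k2, k3⟩ := hTB hρ
    have h6 : mc τ = mc ρ := by rw [mc_ssub h2, mc_ssub k2]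
    have h7 := adj_card h6 (hT hτ hρ hne)
    have h' : τ.1.card / 2 = ρ.1.card / 2 := h
    rw [Nat.odd_iff] at h3 k3
    omega

/-- **the odd part of an interval has no `ℓ²`-homology** -/
theorem lv_odd (hX : ∀ σ ∈ X, ∀ τ : Finset (Fin N), τ ⊆ σ → τ ∈ X) (B : Finset (Fin N)) (σ : MF X col)
    (hBσ : B ⊂ σ.1) (hσ : Even σ.1.card) (hB : Even B.card) (i : ℕ) : LV ((cs X col).induce (Od B σ)) i := by
  classical
  have key : ∀ m : ℕ, ∀ c : ℕ, c + m = σ.1.card →
      LV ((cs X col).induce {τ | B ⊂ τ.1 ∧ τ.1 ⊂ σ.1 ∧ (Odd τ.1.card ∨ τ.1.card < c)}) i := by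
    intro m
    induction m with
    | zero =>
      intro c hc
      refine lv_set ?_ (lv_interval hX σ B hBσ (by
        rw [Finset.card_sdiff_of_subset hBσ.subset]
        rw [Nat.even_iff] at hσ hB ⊢
        omega) i)
      ext τ
      constructor
      · rintro ⟨h1, h2, -⟩
        exact ⟨h1, h2⟩
      · rintro ⟨h1, h2⟩
        have := Finset.card_lt_card h2
        exact ⟨h1, h2, Or.inr (by omega)⟩
    | succ m ih =>
      intro c hc
      have h1 := ih (c + 1) (by omega)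
      by_cases ho : Odd c
      · refine lv_set ?_ h1
        ext τ
        constructor
        · rintro ⟨h2, h3, h4⟩
          exact ⟨h2, h3, h4.imp id (fun h => by omega)⟩
        · rintro ⟨h2, h3, h4⟩
          refine ⟨h2, h3, ?_⟩
          rcases h4 with h4 | h4
          · exact Or.inl h4
          · rcases Nat.lt_succ_iff_lt_or_eq.1 h4 with h5 | h5
            · exact Or.inr h5
            · exact Or.inl (h5 ▸ ho)
      · rw [Nat.not_odd_iff_even] at ho
        refine lv_dels (G := cs X col) _ i {τ | B ⊂ τ.1 ∧ τ.1 ⊂ σ.1 ∧ τ.1.card = c} (lv_set ?_ h1) ?_ ?_ ?_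
        · ext τ
          constructor
          · rintro (⟨h2, h3, h4⟩ | ⟨h2, h3, h4⟩)
            · exact ⟨h2, h3, h4.imp id (fun h => by omega)⟩
            · exact ⟨h2, h3, Or.inr (by omega)⟩
          · rintro ⟨h2, h3, h4⟩
            rcases h4 with h4 | h4
            · exact Or.inl ⟨h2, h3, Or.inl h4⟩
            · rcases Nat.lt_succ_iff_lt_or_eq.1 h4 with h5 | h5
              · exact Or.inl ⟨h2, h3, Or.inr h5⟩
              · exact Or.inr ⟨h2, h3, h5⟩
        · rintro τ ⟨-, -, h4⟩ h5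
          obtain ⟨-, -, h5⟩ := h5
          rw [h4] at h5
          rcases h5 with h5 | h5
          · rw [← Nat.not_even_iff_odd] at h5
            exact h5 ho
          · omega
        · rintro τ ⟨-, h3, h4⟩ ρ ⟨-, k3, k4⟩ h
          exact adj_card (by rw [mc_ssub h3, mc_ssub k3]) h (by rw [h4, k4])
        · rintro ρ ⟨h2, h3, h4⟩
          refine lv_join_set (cs X col) _ {τ | B ⊂ τ.1 ∧ τ.1 ⊂ ρ.1} ?_ ?_ ?_ i
          · rintro τ ⟨k1, k2⟩
            have := Finset.card_lt_card k2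
            exact ⟨⟨k1, k2.trans h3, Or.inr (by omega)⟩, (adj_of_ssub k2).symm⟩
          · rintro τ ⟨k1, k2⟩ w ⟨⟨w1, w2, w3⟩, w4⟩ w5
            have h6 : mc ρ = mc w := by rw [mc_ssub h3, mc_ssub w2]
            rcases (adj_iff h6).1 w4 with h7 | h7
            · exact (adj_of_ssub (k2.trans h7)).symm
            · exact absurd ⟨w1, h7⟩ w5
          · intro j
            refine lv_interval hX ρ B h2 ?_ j
            rw [Finset.card_sdiff_of_subset h2.subset, h4]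
            rw [Nat.even_iff] at ho hB ⊢
            omega
  refine lv_set ?_ (key σ.1.card 0 (by omega))
  ext τ
  constructor
  · rintro ⟨h1, h2, h3⟩
    exact ⟨h1, h2, Or.inl h3⟩
  · rintro ⟨h1, h2, h3⟩
    exact ⟨h1, h2, h3.resolve_right (by omega)⟩

/-- subfaces -/
theorem exists_sub (hX : ∀ σ ∈ X, ∀ τ : Finset (Fin N), τ ⊆ σ → τ ∈ X) (σ : MF X col) (ρ : Finset (Fin N))
    (h : ρ ⊆ σ.1) (hρ : ρ.Nonempty) : ∃ τ : MF X col, τ.1 = ρ :=
  ⟨⟨ρ, hX _ σ.2.1 _ h, hρ, fun v hv w hw => σ.2.2.2 v (h hv) w (h hw)⟩, rfl⟩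

/-- the two singletons in a pair -/
theorem pair_sub (hX : ∀ σ ∈ X, ∀ τ : Finset (Fin N), τ ⊆ σ → τ ∈ X) (ρ : MF X col) (hρ : ρ.1.card = 2) :
    ∃ s t : MF X col, s ≠ t ∧ ¬ (cs X col).Adj s t ∧ s.1 ⊂ ρ.1 ∧ t.1 ⊂ ρ.1 ∧ s.1.card = 1 ∧ t.1.card = 1 ∧
      ∀ τ : MF X col, τ.1 ⊂ ρ.1 → τ = s ∨ τ = t := by
  classical
  obtain ⟨a, b, hab, hρab⟩ := Finset.card_eq_two.1 hρ
  obtain ⟨s, hs⟩ := exists_sub hX ρ {a} (by rw [hρab]; simp) (Finset.singleton_nonempty a)
  obtain ⟨t, ht⟩ := exists_sub hX ρ {b} (by rw [hρab]; simp) (Finset.singleton_nonempty b)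
  have hcs : s.1.card = 1 := by rw [hs]; simp
  have hct : t.1.card = 1 := by rw [ht]; simp
  have hsρ : s.1 ⊂ ρ.1 := by
    refine Finset.ssubset_iff_subset_ne.2 ⟨by rw [hs, hρab]; simp, fun e => ?_⟩
    rw [e, hρ] at hcs
    omega
  have htρ : t.1 ⊂ ρ.1 := by
    refine Finset.ssubset_iff_subset_ne.2 ⟨by rw [ht, hρab]; simp, fun e => ?_⟩
    rw [e, hρ] at hct
    omega
  refine ⟨s, t, ?_, ?_, hsρ, htρ, hcs, hct, ?_⟩
  · intro e
    rw [← e, hs, Finset.singleton_inj] at ht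
    exact hab ht
  · intro h
    exact adj_card (by rw [mc_ssub hsρ, mc_ssub htρ]) h (by rw [hcs, hct])
  · intro τ hτ
    have h1 := Finset.card_lt_card hτ
    have h2 := card_pos' τ
    obtain ⟨c, hc⟩ := Finset.card_eq_one.1 (by omega : τ.1.card = 1)
    have h3 := hτ.subset
    rw [hc, hρab, Finset.singleton_subset_iff, Finset.mem_insert, Finset.mem_singleton] at h3
    rcases h3 with h3 | h3
    · exact Or.inl (Subtype.ext (by rw [hc, hs, h3]))
    · exact Or.inr (Subtype.ext (by rw [hc, ht, h3]))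

/-- the two faces between a face and a face with two more vertices -/
theorem codim_two (hX : ∀ σ ∈ X, ∀ τ : Finset (Fin N), τ ⊆ σ → τ ∈ X) (ρ σ : MF X col) (h : ρ.1 ⊂ σ.1)
    (hc : σ.1.card = ρ.1.card + 2) :
    ∃ s t : MF X col, s ≠ t ∧ ¬ (cs X col).Adj s t ∧ ρ.1 ⊂ s.1 ∧ s.1 ⊂ σ.1 ∧ ρ.1 ⊂ t.1 ∧ t.1 ⊂ σ.1 ∧
      s.1.card = ρ.1.card + 1 ∧ t.1.card = ρ.1.card + 1 ∧
      ∀ τ : MF X col, ρ.1 ⊂ τ.1 → τ.1 ⊂ σ.1 → τ = s ∨ τ = t := by
  classical
  have h2 : (σ.1 \ ρ.1).card = 2 := by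
    rw [Finset.card_sdiff_of_subset h.subset]
    omega
  obtain ⟨a, b, hab, hρab⟩ := Finset.card_eq_two.1 h2
  have ha : a ∈ σ.1 \ ρ.1 := by rw [hρab]; simp
  have hb : b ∈ σ.1 \ ρ.1 := by rw [hρab]; simp
  rw [Finset.mem_sdiff] at ha hb
  obtain ⟨s, hs⟩ := exists_sub hX σ (insert a ρ.1) (Finset.insert_subset ha.1 h.subset) (Finset.insert_nonempty _ _)
  obtain ⟨t, ht⟩ := exists_sub hX σ (insert b ρ.1) (Finset.insert_subset hb.1 h.subset) (Finset.insert_nonempty _ _)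
  have hcs : s.1.card = ρ.1.card + 1 := by rw [hs, Finset.card_insert_of_notMem ha.2]
  have hct : t.1.card = ρ.1.card + 1 := by rw [ht, Finset.card_insert_of_notMem hb.2]
  have sub_of : ∀ u v : Finset (Fin N), u ⊆ v → u.card < v.card → u ⊂ v := fun u v h3 h4 =>
    Finset.ssubset_iff_subset_ne.2 ⟨h3, fun e => by rw [e] at h4; omega⟩
  have hρs : ρ.1 ⊂ s.1 := sub_of _ _ (by rw [hs]; exact Finset.subset_insert _ _) (by omega)
  have hρt : ρ.1 ⊂ t.1 := sub_of _ _ (by rw [ht]; exact Finset.subset_insert _ _) (by omega)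
  have hsσ : s.1 ⊂ σ.1 := sub_of _ _ (by rw [hs]; exact Finset.insert_subset ha.1 h.subset) (by omega)
  have htσ : t.1 ⊂ σ.1 := sub_of _ _ (by rw [ht]; exact Finset.insert_subset hb.1 h.subset) (by omega)
  refine ⟨s, t, ?_, ?_, hρs, hsσ, hρt, htσ, hcs, hct, ?_⟩
  · intro e
    have h3 : a ∈ t.1 := by rw [← e, hs]; exact Finset.mem_insert_self _ _
    rw [ht, Finset.mem_insert] at h3
    exact h3.elim hab ha.2
  · intro h
    exact adj_card (by rw [mc_ssub hsσ, mc_ssub htσ]) h (by rw [hcs, hct])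
  · intro τ h3 h4
    have h5 := Finset.card_lt_card h3
    have h6 := Finset.card_lt_card h4
    obtain ⟨c, hc1, hc2⟩ := Finset.exists_of_ssubset h3
    have h7 : insert c ρ.1 = τ.1 := by
      refine Finset.eq_of_subset_of_card_le (Finset.insert_subset hc1 h3.subset) ?_
      rw [Finset.card_insert_of_notMem hc2]
      omega
    have h8 : c ∈ σ.1 \ ρ.1 := Finset.mem_sdiff.2 ⟨h4.subset hc1, hc2⟩
    rw [hρab, Finset.mem_insert, Finset.mem_singleton] at h8
    rcases h8 with rfl | rfl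
    · exact Or.inl (Subtype.ext (by rw [← h7, hs]))
    · exact Or.inr (Subtype.ext (by rw [← h7, ht]))

end Run7.h709.AC
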