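import Pool.Agent.Run7.h709.AC.Bary

/-!
# The class `AC`: barycentric and colourwise barycentric subdivisions (the main theorem)
-/

set_option autoImplicit false
set_option linter.unusedSectionVars false

noncomputable section

namespace Run7.h709.AC

open Pool.Agent.W907.SG Pool.Agent.W907.SM Pool.Agent.R782.Bal
open Pool.Agent.N496.CV (MidL)
open Pool.Agent.TH652.Above (lv_set lv_sub lv_univ)

variable {N n : ℕ} {X : Finset (Finset (Fin N))} {col : Fin N → Fin n}

/-- the proper faces -/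
def Lo (σ : MF X col) : Set (MF X col) := {τ | τ.1 ⊂ σ.1}

theorem mem_Lo {σ τ : MF X col} : τ ∈ Lo σ ↔ τ.1 ⊂ σ.1 := Iff.rfl

theorem mem_Od {B : Finset (Fin N)} {σ τ : MF X col} : τ ∈ Od B σ ↔ B ⊂ τ.1 ∧ τ.1 ⊂ σ.1 ∧ Odd τ.1.card := Iff.rfl

theorem empty_ssub (τ : MF X col) : ∅ ⊂ τ.1 := τ.2.2.1.empty_ssubset

/-- the boundary of a tetrahedron -/
theorem ac_four (hX : ∀ σ ∈ X, ∀ τ : Finset (Fin N), τ ⊆ σ → τ ∈ X) (σ : MF X col) (hσ : σ.1.card = 4)
    {r : ℕ} {R : Set (MF X col)} (hR : SC (cs X col) r R) (hj : ∀ x ∈ Lo σ, ∀ y ∈ R, (cs X col).Adj x y) :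
    AC (cs X col) (2 + r) (Lo σ ∪ R) := by
  classical
  have h0 : AC (cs X col) (2 + r) (Od ∅ σ ∪ R) := by
    refine sc_join (by norm_num) (Od ∅ σ) (fun T hT hTB => ?_) (lv_odd hX ∅ σ (empty_ssub σ)
      (by rw [hσ]; decide) (by simp)) hR fun x hx y hy => hj x hx.2.1 y hy
    have := od_card ∅ σ (by rw [hσ]; decide) (by simp) T hT hTB
    rw [hσ] at this
    simpa using this
  have h0' : AC (cs X col) ((r + 1) + 1) (Od ∅ σ ∪ R) := by
    have e : 2 + r = (r + 1) + 1 := by omega
    rw [← e]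
    exact h0
  have h1 := add_all (G := cs X col) _ h0' {τ | τ.1 ⊂ σ.1 ∧ τ.1.card = 2} ?_ ?_ ?_
  · have e : 2 + r = (r + 1) + 1 := by omega
    rw [e]
    have e2 : Lo σ ∪ R = (Od ∅ σ ∪ R) ∪ {τ | τ.1 ⊂ σ.1 ∧ τ.1.card = 2} := by
      ext τ
      constructor
      · rintro (h | h)
        · have h2 := Finset.card_lt_card (mem_Lo.1 h)
          have h3 := card_pos' τ
          by_cases ho : Odd τ.1.card
          · exact Or.inl (Or.inl ⟨empty_ssub τ, h, ho⟩)
          · refine Or.inr ⟨h, ?_⟩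
            rw [Nat.not_odd_iff] at ho
            omega
        · exact Or.inl (Or.inr h)
      · rintro ((⟨-, h, -⟩ | h) | ⟨h, -⟩)
        · exact Or.inl h
        · exact Or.inr h
        · exact Or.inl h
    rw [e2]
    exact h1
  · rintro τ ⟨h2, h3⟩ (⟨-, -, h4⟩ | h4)
    · rw [h3] at h4
      exact absurd h4 (by decide)
    · exact (hj τ h2 τ h4).ne rfl
  · rintro τ ⟨h2, h3⟩ ρ ⟨h4, h5⟩ h
    exact adj_card (by rw [mc_ssub h2, mc_ssub h4]) h (by rw [h3, h5])
  · rintro ρ ⟨h2, h3⟩
    obtain ⟨s, t, hst, hnst, hs, ht, hcs, hct, hall⟩ := pair_sub hX ρ h3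
    obtain ⟨u, w, huw, hnuw, hu, hu', hw, hw', hcu, hcw, hall'⟩ := codim_two hX ρ σ h2 (by rw [hσ, h3])
    have e : (Od ∅ σ ∪ R) ∩ (cs X col).neighborSet ρ = insert s (insert t (insert u (insert w R))) := by
      ext τ
      constructor
      · rintro ⟨h4 | h4, h5⟩
        · rcases (adj_iff (by rw [mc_ssub h2, mc_ssub h4.2.1])).1 h5 with h6 | h6
          · rcases hall' τ h6 h4.2.1 with h7 | h7
            · exact Or.inr (Or.inr (Or.inl h7))
            · exact Or.inr (Or.inr (Or.inr (Or.inl h7)))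
          · rcases hall τ h6 with h7 | h7
            · exact Or.inl h7
            · exact Or.inr (Or.inl h7)
        · exact Or.inr (Or.inr (Or.inr (Or.inr h4)))
      · rintro (h | h | h | h | h)
        · rw [h]
          exact ⟨Or.inl ⟨empty_ssub s, hs.trans h2, by rw [hcs]; decide⟩, (adj_of_ssub hs).symm⟩
        · rw [h]
          exact ⟨Or.inl ⟨empty_ssub t, ht.trans h2, by rw [hct]; decide⟩, (adj_of_ssub ht).symm⟩
        · rw [h]
          exact ⟨Or.inl ⟨empty_ssub u, hu', by rw [hcu, h3]; decide⟩, adj_of_ssub hu⟩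
        · rw [h]
          exact ⟨Or.inl ⟨empty_ssub w, hw', by rw [hcw, h3]; decide⟩, adj_of_ssub hw⟩
        · exact ⟨Or.inr h, hj ρ h2 τ h⟩
    rw [e]
    refine AC.susp _ s t hst hnst ?_ (AC.susp R u w huw hnuw (fun x hx => ⟨hj u hu' x hx, hj w hw' x hx⟩) hR.ac)
    rintro x (h | h | h)
    · rw [h]
      exact ⟨adj_of_ssub (hs.trans hu), adj_of_ssub (ht.trans hu)⟩
    · rw [h]
      exact ⟨adj_of_ssub (hs.trans hw), adj_of_ssub (ht.trans hw)⟩
    · exact ⟨hj s (hs.trans h2) x h, hj t (ht.trans h2) x h⟩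

/-- the boundary of the five-dimensional simplex -/
theorem ac_six (hX : ∀ σ ∈ X, ∀ τ : Finset (Fin N), τ ⊆ σ → τ ∈ X) (σ : MF X col) (hσ : σ.1.card = 6)
    {r : ℕ} {R : Set (MF X col)} (hR : SC (cs X col) r R) (hj : ∀ x ∈ Lo σ, ∀ y ∈ R, (cs X col).Adj x y) :
    AC (cs X col) (3 + r) (Lo σ ∪ R) := by
  classical
  have hb : 3 + r = (2 + r) + 1 := by omega
  rw [hb]
  have h0 : AC (cs X col) ((2 + r) + 1) (Od ∅ σ ∪ R) := by
    rw [← hb]
    refine sc_join (by norm_num) (Od ∅ σ) (fun T hT hTB => ?_) (lv_odd hX ∅ σ (empty_ssub σ)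
      (by rw [hσ]; decide) (by simp)) hR fun x hx y hy => hj x hx.2.1 y hy
    have := od_card ∅ σ (by rw [hσ]; decide) (by simp) T hT hTB
    rw [hσ] at this
    simpa using this
  -- adding the edges
  have h1 := add_all (G := cs X col) _ h0 {τ | τ.1 ⊂ σ.1 ∧ τ.1.card = 2} ?_ ?_ ?_
  · -- adding the tetrahedra
    have h2 := add_all (G := cs X col) _ h1 {τ | τ.1 ⊂ σ.1 ∧ τ.1.card = 4} ?_ ?_ ?_
    · have e2 : Lo σ ∪ R = ((Od ∅ σ ∪ R) ∪ {τ | τ.1 ⊂ σ.1 ∧ τ.1.card = 2}) ∪ {τ | τ.1 ⊂ σ.1 ∧ τ.1.card = 4} := by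
        ext τ
        constructor
        · rintro (h | h)
          · have h2 := Finset.card_lt_card (mem_Lo.1 h)
            have h3 := card_pos' τ
            by_cases ho : Odd τ.1.card
            · exact Or.inl (Or.inl (Or.inl ⟨empty_ssub τ, h, ho⟩))
            · rw [Nat.not_odd_iff] at ho
              by_cases h4 : τ.1.card = 2
              · exact Or.inl (Or.inr ⟨h, h4⟩)
              · exact Or.inr ⟨h, by omega⟩
          · exact Or.inl (Or.inl (Or.inr h))
        · rintro (((⟨-, h, -⟩ | h) | ⟨h, -⟩) | ⟨h, -⟩)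
          · exact Or.inl h
          · exact Or.inr h
          · exact Or.inl h
          · exact Or.inl h
      rw [e2]
      exact h2
    · rintro τ ⟨h2, h3⟩ ((⟨-, -, h4⟩ | h4) | h4)
      · rw [h3] at h4
        exact absurd h4 (by decide)
      · exact (hj τ h2 τ h4).ne rfl
      · have h5 := h4.2
        omega
    · rintro τ ⟨h2, h3⟩ ρ ⟨h4, h5⟩ h
      exact adj_card (by rw [mc_ssub h2, mc_ssub h4]) h (by rw [h3, h5])
    · rintro ρ ⟨h2, h3⟩
      obtain ⟨u, w, huw, hnuw, hu, hu', hw, hw', hcu, hcw, hall'⟩ := codim_two hX ρ σ h2 (by rw [hσ, h3])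
      have e : ((Od ∅ σ ∪ R) ∪ {τ | τ.1 ⊂ σ.1 ∧ τ.1.card = 2}) ∩ (cs X col).neighborSet ρ =
          insert u (insert w (Lo ρ ∪ R)) := by
        ext τ
        constructor
        · rintro ⟨(h4 | h4) | h4, h5⟩
          · rcases (adj_iff (by rw [mc_ssub h2, mc_ssub h4.2.1])).1 h5 with h6 | h6
            · rcases hall' τ h6 h4.2.1 with h7 | h7
              · exact Or.inl h7
              · exact Or.inr (Or.inl h7)
            · exact Or.inr (Or.inr (Or.inl h6))
          · exact Or.inr (Or.inr (Or.inr h4))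
          · rcases (adj_iff (by rw [mc_ssub h2, mc_ssub h4.1])).1 h5 with h6 | h6
            · have h7 := Finset.card_lt_card h6
              rw [h3, h4.2] at h7
              omega
            · exact Or.inr (Or.inr (Or.inl h6))
        · rintro (h | h | h | h)
          · rw [h]
            exact ⟨Or.inl (Or.inl ⟨empty_ssub u, hu', by rw [hcu, h3]; decide⟩), adj_of_ssub hu⟩
          · rw [h]
            exact ⟨Or.inl (Or.inl ⟨empty_ssub w, hw', by rw [hcw, h3]; decide⟩), adj_of_ssub hw⟩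
          · have h6 := Finset.card_lt_card (mem_Lo.1 h)
            have h7 := card_pos' τ
            refine ⟨?_, (adj_of_ssub (mem_Lo.1 h)).symm⟩
            by_cases ho : Odd τ.1.card
            · exact Or.inl (Or.inl ⟨empty_ssub τ, (mem_Lo.1 h).trans h2, ho⟩)
            · rw [Nat.not_odd_iff] at ho
              exact Or.inr ⟨(mem_Lo.1 h).trans h2, by omega⟩
          · exact ⟨Or.inl (Or.inr h), hj ρ h2 τ h⟩
      rw [e]
      refine AC.susp _ u w huw hnuw ?_ (ac_four hX ρ h3 hR fun x hx y hy => hj x ((mem_Lo.1 hx).trans h2) y hy)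
      rintro x (h | h)
      · exact ⟨(adj_of_ssub ((mem_Lo.1 h).trans hu)).symm, (adj_of_ssub ((mem_Lo.1 h).trans hw)).symm⟩
      · exact ⟨hj u hu' x h, hj w hw' x h⟩
  · rintro τ ⟨h2, h3⟩ (⟨-, -, h4⟩ | h4)
    · rw [h3] at h4
      exact absurd h4 (by decide)
    · exact (hj τ h2 τ h4).ne rfl
  · rintro τ ⟨h2, h3⟩ ρ ⟨h4, h5⟩ h
    exact adj_card (by rw [mc_ssub h2, mc_ssub h4]) h (by rw [h3, h5])
  · rintro ρ ⟨h2, h3⟩
    obtain ⟨s, t, hst, hnst, hs, ht, hcs, hct, hall⟩ := pair_sub hX ρ h3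
    have e : (Od ∅ σ ∪ R) ∩ (cs X col).neighborSet ρ = insert s (insert t (Od ρ.1 σ ∪ R)) := by
      ext τ
      constructor
      · rintro ⟨h4 | h4, h5⟩
        · rcases (adj_iff (by rw [mc_ssub h2, mc_ssub h4.2.1])).1 h5 with h6 | h6
          · exact Or.inr (Or.inr (Or.inl ⟨h6, h4.2.1, h4.2.2⟩))
          · rcases hall τ h6 with h7 | h7
            · exact Or.inl h7
            · exact Or.inr (Or.inl h7)
        · exact Or.inr (Or.inr (Or.inr h4))
      · rintro (h | h | h | h)
        · rw [h]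
          exact ⟨Or.inl ⟨empty_ssub s, hs.trans h2, by rw [hcs]; decide⟩, (adj_of_ssub hs).symm⟩
        · rw [h]
          exact ⟨Or.inl ⟨empty_ssub t, ht.trans h2, by rw [hct]; decide⟩, (adj_of_ssub ht).symm⟩
        · exact ⟨Or.inl ⟨empty_ssub τ, h.2.1, h.2.2⟩, adj_of_ssub h.1⟩
        · exact ⟨Or.inr h, hj ρ h2 τ h⟩
    rw [e]
    refine AC.susp _ s t hst hnst ?_ ?_
    · rintro x (h | h)
      · exact ⟨adj_of_ssub (hs.trans h.1), adj_of_ssub (ht.trans h.1)⟩
      · exact ⟨hj s (hs.trans h2) x h, hj t (ht.trans h2) x h⟩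
    · refine sc_join (by norm_num) (Od ρ.1 σ) (fun T hT hTB => ?_) (lv_odd hX ρ.1 σ h2
        (by rw [hσ]; decide) (by rw [h3]; decide)) hR fun x hx y hy => hj x hx.2.1 y hy
      have := od_card ρ.1 σ (by rw [hσ]; decide) (by rw [h3]; decide) T hT hTB
      rw [hσ, h3] at this
      simpa using this

/-! ### the main theorem -/

variable {c0 : Fin n}

/-- the auxiliary colours -/
def kap (c0 : Fin n) (τ : MF X col) : ℕ := if mc τ = c0 then (τ.1.card - 1) / 2 else 3 + (mc τ : ℕ)

/-- sets of small faces -/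
theorem midL_gen (hX : ∀ σ ∈ X, ∀ τ : Finset (Fin N), τ ⊆ σ → τ ∈ X) (c0 : Fin n) (L : Set (MF X col))
    (h1 : ∀ τ ∈ L, τ.1.card = 1 ∨ τ.1.card = 2 ∨ (mc τ = c0 ∧ (τ.1.card = 3 ∨ τ.1.card = 5)))
    (h2 : ∀ τ ∈ L, τ.1.card = 2 → ∀ s : MF X col, s.1 ⊂ τ.1 → s ∈ L) :
    MidL (cs X col) (kap c0) {τ | τ.1.card ≠ 2} L := by
  classical
  refine ⟨fun σ hσ hσA τ hτ hτA h e => ?_, fun σ hσ hσA => ?_⟩
  · have hσA' : σ.1.card ≠ 2 := hσA
    have hτA' : τ.1.card ≠ 2 := hτA
    have k1 := h1 σ hσ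
    have k2 := h1 τ hτ
    have hm : mc σ = mc τ := by
      by_contra hne
      unfold kap at e
      by_cases c1 : mc σ = c0
      · have c2 : mc τ ≠ c0 := fun h => hne (c1.trans h.symm)
        rw [if_pos c1, if_neg c2] at e
        omega
      · by_cases c2 : mc τ = c0
        · rw [if_neg c1, if_pos c2] at e
          omega
        · rw [if_neg c1, if_neg c2] at e
          exact hne (Fin.ext (by omega))
    have hc := adj_card hm h
    by_cases c1 : mc σ = c0
    · have c2 : mc τ = c0 := hm.symm.trans c1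
      unfold kap at e
      rw [if_pos c1, if_pos c2] at e
      omega
    · have c2 : mc τ ≠ c0 := fun h => c1 (hm.trans h)
      rcases k1 with k1 | k1 | k1
      · rcases k2 with k2 | k2 | k2
        · omega
        · omega
        · exact c2 k2.1
      · omega
      · exact c1 k1.1
  · have hc2 : σ.1.card = 2 := by
      by_contra h
      exact hσA h
    obtain ⟨s, t, hst, hnst, hs, ht, hcs, hct, hall⟩ := pair_sub hX σ hc2
    have ks : kap c0 s = kap c0 σ := by
      unfold kap
      rw [mc_ssub hs, hcs, hc2]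
    have kt : kap c0 t = kap c0 σ := by
      unfold kap
      rw [mc_ssub ht, hct, hc2]
    refine ⟨s, h2 σ hσ hc2 s hs, by show s.1.card ≠ 2; omega, t, h2 σ hσ hc2 t ht, by show t.1.card ≠ 2; omega, hst,
      hnst, (adj_of_ssub hs).symm, (adj_of_ssub ht).symm, ks, kt, fun u hu hadj hus hut => ?_⟩
    by_cases hm : mc σ = mc u
    · rcases (adj_iff hm).1 hadj with h3 | h3
      · refine ⟨(adj_of_ssub (hs.trans h3)).symm, (adj_of_ssub (ht.trans h3)).symm, fun e => ?_⟩
        have h4 := Finset.card_lt_card h3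
        have h5 := h1 u hu
        unfold kap at e
        by_cases c1 : mc σ = c0
        · rw [if_pos c1, if_pos (hm.symm.trans c1), hc2] at e
          omega
        · rcases h5 with h5 | h5 | h5
          · omega
          · omega
          · exact c1 (hm.trans h5.1)
      · rcases hall u h3 with h4 | h4
        · exact absurd h4 hus
        · exact absurd h4 hut
    · have hm' : mc u ≠ mc σ := fun e => hm e.symm
      refine ⟨adj_sub hX hs.subset hadj.symm hm', adj_sub hX ht.subset hadj.symm hm', fun e => ?_⟩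
      have h5 := h1 u hu
      unfold kap at e
      by_cases c1 : mc σ = c0
      · have c2 : mc u ≠ c0 := fun h => hm (c1.trans h.symm)
        rw [if_neg c2, if_pos c1, hc2] at e
        omega
      · by_cases c2 : mc u = c0
        · rw [if_pos c2, if_neg c1] at e
          omega
        · rw [if_neg c1, if_neg c2] at e
          exact hm (Fin.ext (by omega))

/-- **colourwise barycentric subdivisions**: one colour with monochromatic simplices of at most six vertices, no
monochromatic triangles of the other colours -/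
theorem ac_bary (hX : ∀ σ ∈ X, ∀ τ : Finset (Fin N), τ ⊆ σ → τ ∈ X) (a : Fin n → ℕ) (c0 : Fin n) (h3 : a c0 ≤ 3)
    (h1 : ∀ c, c ≠ c0 → a c ≤ 1) (ha : ∀ σ ∈ X, ∀ c, (∀ v ∈ σ, col v = c) → σ.card ≤ 2 * a c) :
    AC (cs X col) (∑ c, a c + 1) Set.univ := by
  classical
  -- the colours
  obtain ⟨F, hF⟩ : ∃ F : Finset ℕ, F = Finset.range (a c0) ∪
    (Finset.univ.filter (fun c : Fin n => c ≠ c0 ∧ 1 ≤ a c)).image (fun c : Fin n => 3 + (c : ℕ)) := ⟨_, rfl⟩
  have hFc : F.card ≤ ∑ c, a c := by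
    rw [hF]
    refine (Finset.card_union_le _ _).trans ?_
    rw [Finset.card_range, ← Finset.add_sum_erase _ _ (Finset.mem_univ c0)]
    refine Nat.add_le_add_left (Finset.card_image_le.trans ?_) _
    rw [Finset.card_eq_sum_ones]
    refine (Finset.sum_le_sum (g := fun c => a c) fun c hc => (Finset.mem_filter.1 hc).2.2).trans ?_
    refine Finset.sum_le_sum_of_subset fun c hc => ?_
    exact Finset.mem_erase.2 ⟨(Finset.mem_filter.1 hc).2.1, Finset.mem_univ c⟩
  have hsz : ∀ τ : MF X col, τ.1.card ≤ 2 * a (mc τ) := fun τ => ha τ.1 τ.2.1 _ fun v hv => mc_eq τ hv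
  have hκF : ∀ τ : MF X col, kap c0 τ ∈ F := by
    intro τ
    have k1 := hsz τ
    have k2 := card_pos' τ
    rw [hF, Finset.mem_union, Finset.mem_range, Finset.mem_image]
    unfold kap
    by_cases c1 : mc τ = c0
    · left
      rw [if_pos c1]
      rw [c1] at k1
      omega
    · right
      rw [if_neg c1]
      exact ⟨mc τ, Finset.mem_filter.2 ⟨Finset.mem_univ _, c1, by omega⟩, rfl⟩
  obtain ⟨m, hm⟩ : ∃ m, ∑ c, a c = m := ⟨_, rfl⟩
  rw [hm] at hFc ⊢
  -- the small faces
  obtain ⟨L, hL⟩ : ∃ L : Set (MF X col), L = {τ | τ.1.card = 1 ∨ τ.1.card = 2 ∨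
    (mc τ = c0 ∧ (τ.1.card = 3 ∨ τ.1.card = 5))} := ⟨_, rfl⟩
  have hL' : ∀ τ, τ ∈ L ↔ τ.1.card = 1 ∨ τ.1.card = 2 ∨ (mc τ = c0 ∧ (τ.1.card = 3 ∨ τ.1.card = 5)) := fun τ => by
    rw [hL]; rfl
  have hlow : ∀ τ ρ : MF X col, ρ.1.card = 2 → τ.1 ⊂ ρ.1 → τ.1.card = 1 := by
    intro τ ρ h2 h3
    have := Finset.card_lt_card h3
    have := card_pos' τ
    omega
  have s0 : AC (cs X col) (m + 1) L := by
    refine SC.ac (sc_mid (kap c0) {τ | τ.1.card ≠ 2} m L F hFc (fun v _ => hκF v) (midL_gen hX c0 L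
      (fun τ hτ => (hL' τ).1 hτ) fun τ _ h2 s hs => (hL' s).2 (Or.inl (hlow s τ h2 hs))))
  -- the faces of the special colour with four vertices
  have s1 := add_all (G := cs X col) L s0 {τ | mc τ = c0 ∧ τ.1.card = 4} ?_ ?_ ?_
  · have s2 := add_all (G := cs X col) _ s1 {τ | mc τ = c0 ∧ τ.1.card = 6} ?_ ?_ ?_
    · have e : (L ∪ {τ | mc τ = c0 ∧ τ.1.card = 4}) ∪ {τ | mc τ = c0 ∧ τ.1.card = 6} = Set.univ := by
        ext τ
        refine iff_of_true ?_ trivial
        have k1 := hsz τ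
        have k2 := card_pos' τ
        by_cases c1 : mc τ = c0
        · rw [c1] at k1
          by_cases k3 : τ.1.card = 6
          · exact Or.inr ⟨c1, k3⟩
          · by_cases k4 : τ.1.card = 4
            · exact Or.inl (Or.inr ⟨c1, k4⟩)
            · refine Or.inl (Or.inl ((hL' τ).2 ?_))
              by_cases k5 : τ.1.card ≤ 2
              · rcases Nat.lt_or_ge τ.1.card 2 with k6 | k6
                · exact Or.inl (by omega)
                · exact Or.inr (Or.inl (by omega))
              · exact Or.inr (Or.inr ⟨c1, by omega⟩)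
        · have k3 := h1 _ c1
          refine Or.inl (Or.inl ((hL' τ).2 ?_))
          rcases Nat.lt_or_ge τ.1.card 2 with k6 | k6
          · exact Or.inl (by omega)
          · exact Or.inr (Or.inl (by omega))
      rw [e] at s2
      exact s2
    · rintro τ ⟨k1, k2⟩ (k3 | k3)
      · rw [hL'] at k3
        omega
      · have := k3.2
        omega
    · rintro τ ⟨k1, k2⟩ ρ ⟨k3, k4⟩ h
      exact adj_card (by rw [k1, k3]) h (by rw [k2, k4])
    · rintro σ ⟨k1, k2⟩
      have k3 := hsz σ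
      rw [k1, k2] at k3
      have k4 : a c0 = 3 := by omega
      obtain ⟨R, hR⟩ : ∃ R : Set (MF X col), R = {τ | (cs X col).Adj σ τ ∧ mc τ ≠ c0} := ⟨_, rfl⟩
      have hR' : ∀ τ, τ ∈ R ↔ (cs X col).Adj σ τ ∧ mc τ ≠ c0 := fun τ => by rw [hR]; rfl
      have hF0 : 0 ∈ F := by rw [hF]; exact Finset.mem_union_left _ (Finset.mem_range.2 (by omega))
      have hF1 : 1 ∈ F := by rw [hF]; exact Finset.mem_union_left _ (Finset.mem_range.2 (by omega))
      have hF2 : 2 ∈ F := by rw [hF]; exact Finset.mem_union_left _ (Finset.mem_range.2 (by omega))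
      have hF' : (((F.erase 0).erase 1).erase 2).card = F.card - 3 := by
        rw [Finset.card_erase_of_mem, Finset.card_erase_of_mem, Finset.card_erase_of_mem hF0]
        · omega
        · exact Finset.mem_erase.2 ⟨by norm_num, hF1⟩
        · exact Finset.mem_erase.2 ⟨by norm_num, Finset.mem_erase.2 ⟨by norm_num, hF2⟩⟩
      have hm3 : 3 ≤ m := by
        rw [← hm, ← Finset.add_sum_erase _ _ (Finset.mem_univ c0)]
        omega
      obtain ⟨r, rfl⟩ : ∃ r, m = 3 + r := ⟨m - 3, by omega⟩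
      have hsc : SC (cs X col) r R := by
        refine sc_mid (kap c0) {τ | τ.1.card ≠ 2} r R (((F.erase 0).erase 1).erase 2) (by omega) (fun τ hτ => ?_)
          (midL_gen hX c0 R (fun τ hτ => ?_) fun τ hτ h2 s hs => ?_)
        · have k5 := ((hR' τ).1 hτ).2
          have k6 : kap c0 τ = 3 + (mc τ : ℕ) := by unfold kap; rw [if_neg k5]
          refine Finset.mem_erase.2 ⟨by omega, Finset.mem_erase.2 ⟨by omega, Finset.mem_erase.2 ⟨by omega, hκF τ⟩⟩⟩
        · have k5 := h1 _ ((hR' τ).1 hτ).2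
          have k6 := hsz τ
          have k7 := card_pos' τ
          omega
        · obtain ⟨k5, k6⟩ := (hR' τ).1 hτ
          refine (hR' s).2 ⟨?_, by rw [mc_ssub hs]; exact k6⟩
          exact adj_sub hX hs.subset k5 (by rw [k1]; exact k6.symm)
      have hj : ∀ x ∈ Lo σ, ∀ y ∈ R, (cs X col).Adj x y := by
        intro x hx y hy
        obtain ⟨k5, k6⟩ := (hR' y).1 hy
        exact (adj_sub hX (mem_Lo.1 hx).subset k5.symm (by rw [k1]; exact k6)).symm
      have h6 := ac_six hX σ k2 hsc hj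
      have e : (L ∪ {τ | mc τ = c0 ∧ τ.1.card = 4}) ∩ (cs X col).neighborSet σ = Lo σ ∪ R := by
        ext τ
        constructor
        · rintro ⟨h5, h6⟩
          by_cases c1 : mc τ = c0
          · rcases (adj_iff (by rw [k1, c1])).1 h6 with h7 | h7
            · have h8 := Finset.card_lt_card h7
              have h9 := hsz τ
              rw [c1] at h9
              omega
            · exact Or.inl h7
          · exact Or.inr ((hR' τ).2 ⟨h6, c1⟩)
        · rintro (h5 | h5)
          · refine ⟨?_, (adj_of_ssub (mem_Lo.1 h5)).symm⟩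
            have h8 := Finset.card_lt_card (mem_Lo.1 h5)
            have h9 := card_pos' τ
            have c1 : mc τ = c0 := (mc_ssub (mem_Lo.1 h5)).trans k1
            by_cases k4 : τ.1.card = 4
            · exact Or.inr ⟨c1, k4⟩
            · refine Or.inl ((hL' τ).2 ?_)
              by_cases k5 : τ.1.card ≤ 2
              · rcases Nat.lt_or_ge τ.1.card 2 with k6 | k6
                · exact Or.inl (by omega)
                · exact Or.inr (Or.inl (by omega))
              · exact Or.inr (Or.inr ⟨c1, by omega⟩)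
          · obtain ⟨k5, k6⟩ := (hR' τ).1 h5
            refine ⟨Or.inl ((hL' τ).2 ?_), k5⟩
            have k7 := h1 _ k6
            have k8 := hsz τ
            have k9 := card_pos' τ
            omega
      rw [e]
      exact h6
  · rintro τ ⟨k1, k2⟩ k3
    rw [hL'] at k3
    omega
  · rintro τ ⟨k1, k2⟩ ρ ⟨k3, k4⟩ h
    exact adj_card (by rw [k1, k3]) h (by rw [k2, k4])
  · rintro σ ⟨k1, k2⟩
    have k3 := hsz σ
    rw [k1, k2] at k3
    obtain ⟨R, hR⟩ : ∃ R : Set (MF X col), R = {τ | (cs X col).Adj σ τ ∧ (τ.1.card = 5 ∨ mc τ ≠ c0)} := ⟨_, rfl⟩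
    have hR' : ∀ τ, τ ∈ R ↔ (cs X col).Adj σ τ ∧ (τ.1.card = 5 ∨ mc τ ≠ c0) := fun τ => by rw [hR]; rfl
    have hR5 : ∀ τ ∈ R, τ.1.card = 5 → mc τ = c0 := by
      intro τ _ h5
      by_contra h6
      have := h1 _ h6
      have := hsz τ
      omega
    have hF0 : 0 ∈ F := by rw [hF]; exact Finset.mem_union_left _ (Finset.mem_range.2 (by omega))
    have hF1 : 1 ∈ F := by rw [hF]; exact Finset.mem_union_left _ (Finset.mem_range.2 (by omega))
    have hF' : ((F.erase 0).erase 1).card = F.card - 2 := by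
      rw [Finset.card_erase_of_mem, Finset.card_erase_of_mem hF0]
      · omega
      · exact Finset.mem_erase.2 ⟨by norm_num, hF1⟩
    have hm3 : 2 ≤ m := by
      rw [← hm, ← Finset.add_sum_erase _ _ (Finset.mem_univ c0)]
      omega
    obtain ⟨r, rfl⟩ : ∃ r, m = 2 + r := ⟨m - 2, by omega⟩
    have hsc : SC (cs X col) r R := by
      refine sc_mid (kap c0) {τ | τ.1.card ≠ 2} r R ((F.erase 0).erase 1) (by omega) (fun τ hτ => ?_)
        (midL_gen hX c0 R (fun τ hτ => ?_) fun τ hτ h2 s hs => ?_)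
      · have k5 := ((hR' τ).1 hτ).2
        have k6 : kap c0 τ ≠ 0 ∧ kap c0 τ ≠ 1 := by
          unfold kap
          by_cases c1 : mc τ = c0
          · rw [if_pos c1]
            have k7 : τ.1.card = 5 := k5.resolve_right (fun h => h c1)
            omega
          · rw [if_neg c1]
            omega
        exact Finset.mem_erase.2 ⟨k6.2, Finset.mem_erase.2 ⟨k6.1, hκF τ⟩⟩
      · have k5 := ((hR' τ).1 hτ).2
        have k6 := hsz τ
        have k7 := card_pos' τ
        by_cases c1 : mc τ = c0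
        · have k8 : τ.1.card = 5 := k5.resolve_right (fun h => h c1)
          exact Or.inr (Or.inr ⟨c1, Or.inr k8⟩)
        · have k8 := h1 _ c1
          omega
      · obtain ⟨k5, k6⟩ := (hR' τ).1 hτ
        have k7 : mc τ ≠ c0 := k6.resolve_left (by omega)
        refine (hR' s).2 ⟨?_, Or.inr (by rw [mc_ssub hs]; exact k7)⟩
        exact adj_sub hX hs.subset k5 (by rw [k1]; exact k7.symm)
    have hj : ∀ x ∈ Lo σ, ∀ y ∈ R, (cs X col).Adj x y := by
      intro x hx y hy
      obtain ⟨k5, k6⟩ := (hR' y).1 hy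
      by_cases c1 : mc y = c0
      · rcases (adj_iff (by rw [k1, c1])).1 k5 with h7 | h7
        · exact adj_of_ssub ((mem_Lo.1 hx).trans h7)
        · have h8 := Finset.card_lt_card h7
          have h9 : y.1.card = 5 := k6.resolve_right (fun h => h c1)
          omega
      · exact (adj_sub hX (mem_Lo.1 hx).subset k5.symm (by rw [k1]; exact c1)).symm
    have h6 := ac_four hX σ k2 hsc hj
    have e : L ∩ (cs X col).neighborSet σ = Lo σ ∪ R := by
      ext τ
      constructor
      · rintro ⟨h5, h6⟩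
        rw [hL'] at h5
        by_cases c1 : mc τ = c0
        · rcases (adj_iff (by rw [k1, c1])).1 h6 with h7 | h7
          · have h8 := Finset.card_lt_card h7
            exact Or.inr ((hR' τ).2 ⟨h6, Or.inl (by omega)⟩)
          · exact Or.inl h7
        · exact Or.inr ((hR' τ).2 ⟨h6, Or.inr c1⟩)
      · rintro (h5 | h5)
        · refine ⟨(hL' τ).2 ?_, (adj_of_ssub (mem_Lo.1 h5)).symm⟩
          have h8 := Finset.card_lt_card (mem_Lo.1 h5)
          have h9 := card_pos' τ
          have c1 : mc τ = c0 := (mc_ssub (mem_Lo.1 h5)).trans k1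
          by_cases k5 : τ.1.card ≤ 2
          · rcases Nat.lt_or_ge τ.1.card 2 with k6 | k6
            · exact Or.inl (by omega)
            · exact Or.inr (Or.inl (by omega))
          · exact Or.inr (Or.inr ⟨c1, by omega⟩)
        · obtain ⟨k5, k6⟩ := (hR' τ).1 h5
          refine ⟨(hL' τ).2 ?_, k5⟩
          rcases k6 with k6 | k6
          · exact Or.inr (Or.inr ⟨hR5 τ h5 k6, Or.inr k6⟩)
          · have k7 := h1 _ k6
            have k8 := hsz τ
            have k9 := card_pos' τ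
            omega
    rw [e]
    exact h6

end Run7.h709.AC
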