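import Pool.Agent.Run7.h709.AC.Mid

/-!
# The class `AC`: examples
-/

set_option autoImplicit false
set_option linter.unusedSectionVars false

noncomputable section

namespace Run7.h709.AC

open Pool.Agent.W907.SG Pool.Agent.R782.Bal
open Pool.Agent.N504.RS
open Pool.Agent.N496.CV (MidL)

variable {V : Type} [Finite V] {G : SimpleGraph V}

/-- Every nonempty set `D` of vertices with `p = i` contains a vertex with at most two neighbours in `D` (the full
subgraph on the vertices with `p = i` is `2`-degenerate). For example a forest, a cycle, an outerplanar or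
series-parallel graph, or any graph after the subdivision of its edges. -/
def Deg2 {m : ℕ} (G : SimpleGraph V) (p : V → Fin m) (i : Fin m) : Prop :=
  ∀ D : Set V, D.Nonempty → (∀ x ∈ D, p x = i) → ∃ v ∈ D, ∃ s t, ∀ x ∈ D, G.Adj v x → x = s ∨ x = t

/-- joins of `2`-degenerate graphs -/
theorem ac_joins {m : ℕ} (p : V → Fin m) (hp : ∀ u v, p u ≠ p v → G.Adj u v) (hd : ∀ i, Deg2 G p i) :
    AC G (m + 1) Set.univ := by
  have h : ∀ j : ℕ, j ≤ m → AC G (j + 1) {v | (p v : ℕ) < j} := by
    intro j
    induction j with
    | zero =>
      intro _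
      have e : {v | (p v : ℕ) < 0} = ∅ := by ext v; simp
      rw [e]
      refine AC.small ∅ le_rfl fun T _ hT => ?_
      rw [Set.subset_empty_iff, Finset.coe_eq_empty] at hT
      rw [hT, Finset.card_empty]
      exact Nat.one_pos
    | succ j ih =>
      intro hj
      have h1 := ac_join _ (ih (by omega)) _ {v | (p v : ℕ) = j} rfl
        (by
          rw [Set.disjoint_left]
          intro v h1 h2
          have h1' : (p v : ℕ) = j := h1
          have h2' : (p v : ℕ) < j := h2
          omega)
        (fun x hx y hy => hp x y fun e => by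
          have hx' : (p x : ℕ) = j := hx
          have hy' : (p y : ℕ) < j := hy
          rw [e] at hx'
          omega)
        (fun D hD hne => hd ⟨j, hj⟩ D hne fun x hx => Fin.ext (hD hx))
      have e : {v | (p v : ℕ) = j} ∪ {v | (p v : ℕ) < j} = {v | (p v : ℕ) < j + 1} := by
        ext v
        simp only [Set.mem_union, Set.mem_setOf_eq]
        omega
      rw [e] at h1
      exact h1
  have h1 := h m le_rfl
  have e : {v | (p v : ℕ) < m} = Set.univ := by
    ext v
    simp
  rw [e] at h1
  exact h1

/-- coloured complexes with subdivided monochromatic edges in the sphere of dimension `2 d` -/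
theorem ac_col {d : ℕ} (κ : V → Fin (d + 1)) (A : Set V) (hM : MidL G (fun v => (κ v : ℕ)) A Set.univ)
    (hE : Emb d G) : AC G (d + 1) Set.univ := by
  refine ac_mid (fun v => (κ v : ℕ)) A (d + 1) Set.univ (Finset.range (d + 1)) (Finset.card_range _)
    (fun v _ => Finset.mem_range.2 (κ v).2) hM ?_ Set.univ (Set.Subset.refl _)
  exact obs_mono hE.obs (Function.Embedding.subtype _) fun a b h => h

end Run7.h709.AC
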