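import Pool.Agent.Run7.h709.AC.Main
import Pool.Agent.Run7.h709.AC.Ex

/-!
# Euler characteristics of duality subgroups
-/

set_option autoImplicit false
set_option linter.unusedSectionVars false

noncomputable section

namespace Run7.h709.AC

open Pool.Agent.W907.SG Pool.Agent.W461.SGN Pool.Agent.Helper655.VN Pool.Agent.RK
open Pool.Agent.N496.CV VN831 Pool.Agent.R782.Bal Pool.Agent.W907.SM

theorem bet_zero_iff {K : Type} [Group K] (C : V7N.FreeRes K) (n : ℕ) : l2Betti K n = 0 ↔ bet C n = 0 := by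
  cases n with
  | zero =>
    rw [zero_iff C]
    show _ ↔ (C.r 0 : ℝ) - rk (tau K) (nm C 0) = 0
    constructor <;> intro h <;> linarith
  | succ n =>
    rw [succ_iff C n]
    show _ ↔ (C.r (n + 1) : ℝ) - rk (tau K) (nm C (n + 1)) - rk (tau K) (nm C n) = 0
    constructor <;> intro h <;> linarith

/-- the Euler characteristic computed by the resolution `C` which is zero above the degree `q` -/
def chiR {K : Type} [Group K] (C : V7N.FreeRes K) (q : ℕ) : ℤ :=
  ∑ i ∈ Finset.range (q + 1), (-1 : ℤ) ^ i * (C.r i : ℤ)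

theorem chiR_eq {K : Type} [Group K] (C : V7N.FreeRes K) (q : ℕ) (h0 : ∀ i, q < i → C.r i = 0) :
    (chiR C q : ℝ) = ∑ i ∈ Finset.range (q + 1), (-1 : ℝ) ^ i * bet C i := by
  have h1 := euler_sum C q
  have h2 : rk (tau K) (nm C q) = 0 := rk_rows_zero (h0 _ (by omega)) _
  rw [h2, mul_zero, zero_add] at h1
  rw [← h1, chiR]
  push_cast
  rfl

/-- all the `L²`-Betti numbers vanish -/
theorem chiR_zero {K : Type} [Group K] (C : V7N.FreeRes K) (q : ℕ) (h0 : ∀ i, q < i → C.r i = 0)
    (h : ∀ k, l2Betti K k = 0) : chiR C q = 0 := by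
  have h1 := chiR_eq C q h0
  rw [Finset.sum_eq_zero fun i _ => by rw [(bet_zero_iff C i).1 (h i), mul_zero]] at h1
  exact_mod_cast h1

/-- all but one of the `L²`-Betti numbers vanish -/
theorem chiR_iff {K : Type} [Group K] (C : V7N.FreeRes K) (q d : ℕ) (h0 : ∀ i, q < i → C.r i = 0)
    (h : ∀ k, k ≠ d → l2Betti K k = 0) : (∀ k, l2Betti K k = 0) ↔ chiR C q = 0 := by
  refine ⟨chiR_zero C q h0, fun hχ => ?_⟩
  have h1 := chiR_eq C q h0
  rw [hχ, Int.cast_zero] at h1
  intro k
  by_cases hk : k = d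
  · subst hk
    by_cases hkq : k ≤ q
    · rw [Finset.sum_eq_single k (fun i _ hi => by rw [(bet_zero_iff C i).1 (h i hi), mul_zero])
        (fun hk => absurd (Finset.mem_range.2 (by omega)) hk)] at h1
      rw [bet_zero_iff C k]
      have h2 : (-1 : ℝ) ^ k ≠ 0 := pow_ne_zero _ (by norm_num)
      rcases mul_eq_zero.1 h1.symm with h3 | h3
      · exact absurd h3 h2
      · exact h3
    · rw [bet_zero_iff C k]
      have h3 := bet_nonneg C k
      have h4 : bet C k ≤ 0 := by
        obtain ⟨j, rfl⟩ : ∃ j, k = j + 1 := ⟨k - 1, by omega⟩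
        show (C.r (j + 1) : ℝ) - rk (tau K) (nm C (j + 1)) - rk (tau K) (nm C j) ≤ 0
        have h5 : rk (tau K) (nm C (j + 1)) = 0 := rk_rows_zero (h0 _ (by omega)) _
        have h6 : rk (tau K) (nm C j) = 0 := rk_rows_zero (h0 _ (by omega)) _
        rw [h5, h6, h0 (j + 1) (by omega)]
        simp
      linarith
  · exact h k hk

variable {V : Type} [Fintype V] [LinearOrder V]

/-- the vanishing outside of the middle dimension for duality subgroups of dimension `q ≥ 2 b - 2` -/
theorem pd_mid (G : SimpleGraph V) {b : ℕ} (hAC : AC G b Set.univ) (K : Subgroup (W G)) (hK : K ≤ (th G).ker)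
    {q : ℕ} (P : PD K q) (hq : 2 * b ≤ q + 2) (k : ℕ) (hk : 2 * k ≠ q) : l2Betti K k = 0 := by
  have hb := hAC.pos
  refine pd_van G hAC K hK P k ?_
  by_cases h : b ≤ k
  · exact Or.inl ⟨h, by omega⟩
  · exact Or.inr ⟨by omega, by omega⟩

/-- the vanishing for duality subgroups of dimension `q ≥ 2 b - 1` -/
theorem pd_all (G : SimpleGraph V) {b : ℕ} (hAC : AC G b Set.univ) (K : Subgroup (W G)) (hK : K ≤ (th G).ker)
    {q : ℕ} (P : PD K q) (hq : 2 * b ≤ q + 1) (k : ℕ) : l2Betti K k = 0 := by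
  have hb := hAC.pos
  refine pd_van G hAC K hK P k ?_
  by_cases h : b ≤ k
  · exact Or.inl ⟨h, by omega⟩
  · exact Or.inr ⟨by omega, by omega⟩

end Run7.h709.AC
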