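import Pool.Agent.W907.SG.Defs

/-!
# The class `AC`: vanishing for all the subgroups
-/

set_option autoImplicit false
set_option linter.unusedSectionVars false

noncomputable section

namespace Run7.h709.AC

open Pool.Agent.W907.SG

/-- The class `AC G b` of sets of vertices of the graph `G`, for which we show that the `L²`-Betti numbers in the
degrees `≥ b` of all the torsion free subgroups (of finite or infinite index) of the right-angled Coxeter group of the
full subgraph vanish. -/
inductive AC {V : Type} (G : SimpleGraph V) : ℕ → Set V → Prop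
  /-- sets (for example the empty set) whose cliques have less than `b` elements -/
  | small {b : ℕ} (C : Set V) : 1 ≤ b → (∀ T : Finset V, G.IsClique (T : Set V) → (T : Set V) ⊆ C → T.card < b) →
      AC G b C
  /-- The cliques of `C` have at most `b` elements, and the `ℓ²`-homology of the Davis complex of the right-angled
  Coxeter group of `C` vanishes in the top degree `b`. (For example: `C` is properly coloured by `b` colours and its
  flag complex is embedded in the sphere of dimension `2 b - 2`.) -/
  | top {b : ℕ} (C : Set V) : 1 ≤ b → (∀ T : Finset V, G.IsClique (T : Set V) → (T : Set V) ⊆ C → T.card ≤ b) →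
      (∀ [Fintype C] [LinearOrder C], L2Van (G.induce C) b) → AC G b C
  /-- from `b` to `b + 1` -/
  | up {b : ℕ} (C : Set V) : AC G b C → AC G (b + 1) C
  /-- cones -/
  | cone {b : ℕ} (C : Set V) (s : V) : (∀ x ∈ C, G.Adj s x) → AC G b C → AC G b (insert s C)
  /-- suspensions -/
  | susp {b : ℕ} (C : Set V) (s t : V) : s ≠ t → ¬ G.Adj s t → (∀ x ∈ C, G.Adj s x ∧ G.Adj t x) → AC G b C →
      AC G b (insert s (insert t C))
  /-- adding a vertex whose link is in the class `b` -/
  | vert {b : ℕ} (C : Set V) (v : V) : v ∉ C → AC G (b + 1) C → AC G b (C ∩ G.neighborSet v) →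
      AC G (b + 1) (insert v C)
  /-- gluing along a full subcomplex of the class `b` -/
  | glue {b : ℕ} (A B : Set V) : (∀ a ∈ A, a ∉ B → ∀ b ∈ B, b ∉ A → ¬ G.Adj a b) → AC G (b + 1) A →
      AC G (b + 1) B → AC G b (A ∩ B) → AC G (b + 1) (A ∪ B)

theorem AC.pos {V : Type} {G : SimpleGraph V} {b : ℕ} {C : Set V} (h : AC G b C) : 1 ≤ b := by
  induction h with
  | small C h _ => exact h
  | top C h _ _ => exact h
  | up C _ ih => omega
  | cone C s _ _ ih => exact ih
  | susp C s t _ _ _ _ ih => exact ih
  | vert C v _ _ _ _ _ => omega
  | glue A B _ _ _ _ _ _ _ => omega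

end Run7.h709.AC
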