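import Pool.Agent.Run7.h709.AC.Def
import Pool.Agent.N496.CV.Ind
import Pool.Agent.N496.CV.P_CON

/-!
# The class `AC`: the induction
-/

set_option autoImplicit false
set_option linter.unusedSectionVars false

noncomputable section

namespace Run7.h709.AC

open Pool.Agent.W907.SG Pool.Agent.W907.SM Pool.Agent.W461.SGN Pool.Agent.R782.Bal
open Pool.Agent.Helper655.VN Pool.Agent.RK Pool.Agent.N504.RS
open Pool.Agent.N496.CV
open Pool.Agent.N496.CV.C722 (Lin lin_InM ch_add ch_sub ch_bdf ch_mono bdf_sub bdf_bdf)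

variable {V : Type} [Fintype V] [LinearOrder V] {G : SimpleGraph V}

/-- a clique of a glued complex is in one of the two parts -/
theorem clique_glue {A B : Set V} (hsep : ∀ a ∈ A, a ∉ B → ∀ b ∈ B, b ∉ A → ¬ G.Adj a b) (T : Finset V)
    (hT : G.IsClique (T : Set V)) (hTC : (T : Set V) ⊆ A ∪ B) : (T : Set V) ⊆ A ∨ (T : Set V) ⊆ B := by
  by_contra h
  push Not at h
  obtain ⟨h1, h2⟩ := h
  obtain ⟨b, hb, hbA⟩ := Set.not_subset.1 h1
  obtain ⟨a, ha, haB⟩ := Set.not_subset.1 h2
  have hbB : b ∈ B := (hTC hb).resolve_left hbA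
  have haA : a ∈ A := (hTC ha).resolve_right haB
  have hne : a ≠ b := fun e => haB (e ▸ hbB)
  exact hsep a haA haB b hbB hbA (hT ha hb hne)

/-- **gluing** (the Mayer–Vietoris sequence) -/
theorem hv_glue {R : Type} [AddCommGroup R] {M : (W G → R) → Prop} (hM : Lin M) {A B : Set V} (i : ℕ)
    (hsep : ∀ a ∈ A, a ∉ B → ∀ b ∈ B, b ∉ A → ¬ G.Adj a b) (hA : Hv G A M (i + 1)) (hB : Hv G B M (i + 1))
    (hAB : Hv G (A ∩ B) M i) : Hv G (A ∪ B) M (i + 1) := by
  classical
  intro c hc hc0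
  obtain ⟨cA, hcA⟩ : ∃ cA : Finset V → W G → R, cA = fun T : Finset V => if (T : Set V) ⊆ A then c T else 0 := ⟨_, rfl⟩
  have hcA1 : ∀ T : Finset V, (T : Set V) ⊆ A → cA T = c T := fun T hT => by rw [hcA]; exact if_pos hT
  have hcA2 : ∀ T : Finset V, ¬ (T : Set V) ⊆ A → cA T = 0 := fun T hT => by rw [hcA]; exact if_neg hT
  have hA1 : IsCh G A M (i + 1) cA := by
    refine ⟨fun T hT => ?_, fun T => ?_, fun T t ht w => ?_⟩
    · by_cases h : (T : Set V) ⊆ A
      · rw [hcA1 T h]
        refine hc.supp T ?_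
        rintro ⟨h1, -, h3⟩
        exact hT ⟨h1, h, h3⟩
      · exact hcA2 T h
    · by_cases h : (T : Set V) ⊆ A
      · rw [hcA1 T h]; exact hc.mem T
      · rw [hcA2 T h]; exact hM.zero
    · by_cases h : (T : Set V) ⊆ A
      · rw [hcA1 T h]; exact hc.anti T t ht w
      · rw [hcA2 T h]; simp
  have hB1 : IsCh G B M (i + 1) (c - cA) := by
    refine ⟨fun T hT => ?_, fun T => ?_, fun T t ht w => ?_⟩
    · rw [Pi.sub_apply]
      by_cases h : (T : Set V) ⊆ A
      · rw [hcA1 T h, sub_self]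
      · rw [hcA2 T h, sub_zero]
        refine hc.supp T ?_
        rintro ⟨h1, h2, h3⟩
        rcases clique_glue hsep T h1 h2 with h4 | h4
        · exact h h4
        · exact hT ⟨h1, h4, h3⟩
    · rw [Pi.sub_apply]
      exact hM.sub (hc.mem T) (hA1.mem T)
    · rw [Pi.sub_apply, Pi.sub_apply, Pi.sub_apply, hc.anti T t ht w, hA1.anti T t ht w]
      abel
  -- the boundary
  have hz : bdf G (c - cA) = - bdf G cA := by rw [bdf_sub, hc0, zero_sub]
  have hz1 := ch_bdf hM hA1
  have hz2 := ch_bdf hM hB1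
  rw [hz] at hz2
  have hz3 : IsCh G (A ∩ B) M i (bdf G cA) := by
    refine ⟨fun T hT => ?_, hz1.mem, hz1.anti⟩
    by_contra hne
    apply hT
    have h1 : G.IsClique (T : Set V) ∧ (T : Set V) ⊆ A ∧ T.card = i := by
      by_contra h
      exact hne (hz1.supp T h)
    have h2 : G.IsClique (T : Set V) ∧ (T : Set V) ⊆ B ∧ T.card = i := by
      by_contra h
      have h3 := hz2.supp T h
      rw [Pi.neg_apply, neg_eq_zero] at h3
      exact hne h3
    exact ⟨h1.1, Set.subset_inter h1.2.1 h2.2.1, h1.2.2⟩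
  obtain ⟨y, hy, hyz⟩ := hAB (bdf G cA) hz3 (bdf_bdf G cA)
  have hyA : IsCh G A M (i + 1) y := ch_mono Set.inter_subset_left hy hy.mem
  have hyB : IsCh G B M (i + 1) y := ch_mono Set.inter_subset_right hy hy.mem
  obtain ⟨e, he, hez⟩ := hA (cA - y) (ch_sub hM hA1 hyA) (by rw [bdf_sub, hyz, sub_self])
  obtain ⟨f, hf, hfz⟩ := hB (c - cA + y) (ch_add hM hB1 hyB) (by
    rw [C722.bdf_add, hz, hyz]
    exact neg_add_cancel _)
  refine ⟨e + f, ch_add hM (ch_mono Set.subset_union_left he he.mem) (ch_mono Set.subset_union_right hf hf.mem), ?_⟩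
  rw [C722.bdf_add, hez, hfz]
  abel

/-- **the induction** -/
theorem ac_hv (hV : GDV) (hD : GDD) (hS : SUS) (hC : CON) (hL : LNK) (hT : TOP)
    (K : Subgroup (W G)) (U : Type) [Ring U] (ι : NG K →+* U) (u : K →* U) (hloc : Loc ι)
    (hu : ∀ h, u h = ι (canL h)) (hR : Rg K u) {b : ℕ} {C : Set V} (h : AC G b C) :
    ∀ (L : Set V) (Y : Set (W G)) (E : Subgroup (W G × ℤˣ)), Good K L Y E → C ⊆ L → ∀ i, b ≤ i →
    Hv G C (InM K u Y E) i := by
  classical
  induction h with
  | @small b C hb hcard =>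
    intro L Y E hG hCL i hi c hc hb0
    have hc0 : c = 0 := by
      funext T
      refine hc.supp T ?_
      rintro ⟨h1, h2, h3⟩
      have := hcard T h1 h2
      omega
    subst hc0
    exact ⟨0, isCh_zero K u Y E _ (i + 1), bdf_zero⟩
  | @top b C _ hcard hvan =>
    intro L Y E hG hCL i hi c hc hb0
    have hc0 : c = 0 := by
      rcases Nat.lt_or_ge b i with h | h
      · funext T
        refine hc.supp T ?_
        rintro ⟨h1, h2, h3⟩
        have := hcard T h1 h2
        omega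
      · have him : i = b := le_antisymm h hi
        subst him
        refine hT V G K U ι u L C Y E i hloc hu hG hCL ?_ hcard c hc hb0
        intro _ _
        exact hvan
    subst hc0
    exact ⟨0, isCh_zero K u Y E _ (i + 1), bdf_zero⟩
  | @up b C _ ih =>
    intro L Y E hG hCL i hi
    exact ih L Y E hG hCL i (by omega)
  | @cone b C s hs _ ih =>
    intro L Y E hG hCL i hi
    have hsL : s ∈ L := hCL (Set.mem_insert s C)
    have hCL' : C ⊆ L := (Set.subset_insert s C).trans hCL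
    exact hC V G K U u L C Y E s i hR hG hsL hCL' hs
      (ih C Y (addv E s 1) (hV V G K L C Y E s 1 hR.tf hG hsL hCL' hs) (Set.Subset.refl C) i hi)
  | @susp b C s t hst hn hx _ ih =>
    intro L Y E hG hCL i hi
    have hsL : s ∈ L := hCL (Set.mem_insert s _)
    have htL : t ∈ L := hCL (Set.mem_insert_of_mem s (Set.mem_insert t C))
    have hCL' : C ⊆ L := fun x hx => hCL (Set.mem_insert_of_mem s (Set.mem_insert_of_mem t hx))
    exact hS V G K U u L C Y E s t i hR hG hsL htL hst hn hCL' hx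
      (ih C _ _ (hD V G K L C Y E s t hG hsL htL hCL' hx) (Set.Subset.refl C) i hi)
  | @vert b C v hv _ _ ih1 ih2 =>
    intro L Y E hG hCL i hi
    obtain ⟨j, rfl⟩ : ∃ j, i = j + 1 := ⟨i - 1, by omega⟩
    have hvL : v ∈ L := hCL (Set.mem_insert v C)
    have hCL' : C ⊆ L := (Set.subset_insert v C).trans hCL
    refine hL V G K U u L C Y E v j hR hG hvL hCL' hv (ih1 L Y E hG hCL' (j + 1) hi) ?_
    exact ih2 (C ∩ G.neighborSet v) Y (addv E v (-1))
      (hV V G K L (C ∩ G.neighborSet v) Y E v (-1) hR.tf hG hvL (Set.inter_subset_left.trans hCL')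
        fun x hx => hx.2) (Set.Subset.refl _) j (by omega)
  | @glue b A B hsep _ _ _ ih1 ih2 ih3 =>
    intro L Y E hG hCL i hi
    obtain ⟨j, rfl⟩ : ∃ j, i = j + 1 := ⟨i - 1, by omega⟩
    exact hv_glue lin_InM j hsep (ih1 L Y E hG (Set.subset_union_left.trans hCL) (j + 1) hi)
      (ih2 L Y E hG (Set.subset_union_right.trans hCL) (j + 1) hi)
      (ih3 L Y E hG (Set.inter_subset_left.trans (Set.subset_union_left.trans hCL)) j (by omega))

end Run7.h709.AC
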