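import Pool.Agent.Run7.h709.AC.Def
import Pool.Agent.N496.CV.Ind

/-!
# The class `AC`: coloured complexes with subdivided monochromatic edges
-/

set_option autoImplicit false
set_option linter.unusedSectionVars false

noncomputable section

namespace Run7.h709.AC

open Pool.Agent.W907.SG Pool.Agent.W907.SM Pool.Agent.R782.Bal
open Pool.Agent.N504.RS
open Pool.Agent.N496.CV (MidL)
open Pool.Agent.TH652.Above (lv_set lv_sub lv_univ)

variable {V : Type} [Finite V] {G : SimpleGraph V}

/-- coloured complexes with subdivided monochromatic edges, and their full subcomplexes -/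
theorem ac_mid (κ : V → ℕ) (A : Set V) (m : ℕ) :
    ∀ (L : Set V) (F : Finset ℕ), F.card = m → (∀ v ∈ L, κ v ∈ F) → MidL G κ A L → Obs (G.induce L) (2 * m) →
    ∀ C : Set V, C ⊆ L → AC G m C := by
  classical
  induction m with
  | zero => intro L F _ _ _ hO; exact absurd rfl (obs_pos hO)
  | succ m ih =>
    intro L F hF hκ hM hO C hCL
    -- the links of the midpoints
    have key : ∀ v ∈ L, v ∉ A → ∀ C : Set V, C ⊆ L → v ∉ C → AC G m (C ∩ G.neighborSet v) := by
      intro v hvL hv C hCL hvC
      obtain ⟨s, hsL, hsA, t, htL, htA, hst, hnst, hvs, hvt, hκs, hκt, hLv⟩ := hM.mid v hvL hv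
      obtain ⟨L', hLd⟩ : ∃ L' : Set V, L' = {x | x ∈ L ∧ G.Adj v x ∧ x ≠ s ∧ x ≠ t} := ⟨_, rfl⟩
      have hmem : ∀ x, x ∈ L' ↔ x ∈ L ∧ G.Adj v x ∧ x ≠ s ∧ x ≠ t := fun x => by rw [hLd]; rfl
      have hLadj : ∀ x ∈ L', G.Adj x s ∧ G.Adj x t ∧ κ x ≠ κ v := by
        intro x hx
        obtain ⟨h0, h1, h2, h3⟩ := (hmem x).1 hx
        exact hLv x h0 h1 h2 h3
      have hL'L : L' ⊆ L := fun x hx => ((hmem x).1 hx).1
      have hM' : MidL G κ A L' := by
        refine ⟨fun x hx hxA y hy hyA hxy => hM.col x (hL'L hx) hxA y (hL'L hy) hyA hxy, fun x hx hxA => ?_⟩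
        obtain ⟨s', hs'L, hs'A, t', ht'L, ht'A, hst', hnst', hxs, hxt, hκs', hκt', hL''⟩ := hM.mid x (hL'L hx) hxA
        have hxL := (hmem x).1 hx
        have h1 := hL'' v hvL hxL.2.1.symm (fun e => hv (e ▸ hs'A)) (fun e => hv (e ▸ ht'A))
        have h2 := (hLadj x hx).2.2
        have m1 : s' ∈ L' := (hmem s').2 ⟨hs'L, h1.1, fun e => h2 (by rw [← hκs', e, hκs]),
          fun e => h2 (by rw [← hκs', e, hκt])⟩
        have m2 : t' ∈ L' := (hmem t').2 ⟨ht'L, h1.2.1, fun e => h2 (by rw [← hκt', e, hκs]),
          fun e => h2 (by rw [← hκt', e, hκt])⟩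
        exact ⟨s', m1, hs'A, t', m2, ht'A, hst', hnst', hxs, hxt, hκs', hκt',
          fun y hy hxy hys hyt => hL'' y (hL'L hy) hxy hys hyt⟩
      have hO1 : Obs (G.induce (insert s L')) (2 * m + 1) := by
        have hO' : Obs (G.induce L) (2 * m + 1 + 1) := hO
        refine obs_link hO' ⟨fun x => ⟨x.1, ?_⟩, fun a b h => Subtype.ext (by
          have := congrArg Subtype.val h
          exact this)⟩ ⟨v, hvL⟩ (fun a b h => h) ?_
        · rcases x.2 with h | h
          · rw [h]; exact hsL
          · exact hL'L h
        · rintro ⟨a, ha⟩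
          rcases ha with rfl | ha
          · exact hvs
          · exact ((hmem a).1 ha).2.1
      have hO2 : Obs (G.induce L') (2 * m) := by
        refine obs_link hO1 ⟨fun x => ⟨x.1, Or.inr x.2⟩, fun a b h => Subtype.ext (by
          have := congrArg Subtype.val h
          exact this)⟩ ⟨s, Or.inl rfl⟩ (fun a b h => h) ?_
        intro a
        exact (hLadj a.1 a.2).1.symm
      have hF' : (F.erase (κ v)).card = m := by
        rw [Finset.card_erase_of_mem (hκ v hvL), hF]; rfl
      have hκ' : ∀ x ∈ L', κ x ∈ F.erase (κ v) := fun x hx =>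
        Finset.mem_erase.2 ⟨(hLadj x hx).2.2, hκ x (hL'L hx)⟩
      have h0 : AC G m (C ∩ L') := ih L' (F.erase (κ v)) hF' hκ' hM' hO2 (C ∩ L') (fun x hx => hx.2)
      have hN : ∀ x, x ∈ C ∩ G.neighborSet v ↔ x ∈ C ∩ L' ∨ (x = s ∧ s ∈ C) ∨ (x = t ∧ t ∈ C) := by
        intro x
        constructor
        · rintro ⟨h5, h6⟩
          by_cases e1 : x = s
          · subst e1; exact Or.inr (Or.inl ⟨rfl, h5⟩)
          by_cases e2 : x = t
          · subst e2; exact Or.inr (Or.inr ⟨rfl, h5⟩)
          exact Or.inl ⟨h5, (hmem x).2 ⟨hCL h5, h6, e1, e2⟩⟩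
        · rintro (⟨h5, h6⟩ | ⟨rfl, h5⟩ | ⟨rfl, h5⟩)
          · exact ⟨h5, ((hmem x).1 h6).2.1⟩
          · exact ⟨h5, hvs⟩
          · exact ⟨h5, hvt⟩
      by_cases hsC : s ∈ C
      · by_cases htC : t ∈ C
        · have h2 : insert s (insert t (C ∩ L')) = C ∩ G.neighborSet v := by
            ext x
            rw [hN]
            constructor
            · rintro (h | h | h)
              · exact Or.inr (Or.inl ⟨h, hsC⟩)
              · exact Or.inr (Or.inr ⟨h, htC⟩)
              · exact Or.inl h
            · rintro (h | ⟨h, -⟩ | ⟨h, -⟩)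
              · exact Or.inr (Or.inr h)
              · exact Or.inl h
              · exact Or.inr (Or.inl h)
          rw [← h2]
          exact AC.susp _ s t hst hnst (fun x hx => ⟨(hLadj x hx.2).1.symm, (hLadj x hx.2).2.1.symm⟩) h0
        · have h2 : insert s (C ∩ L') = C ∩ G.neighborSet v := by
            ext x
            rw [hN]
            constructor
            · rintro (h | h)
              · exact Or.inr (Or.inl ⟨h, hsC⟩)
              · exact Or.inl h
            · rintro (h | ⟨h, -⟩ | ⟨-, h⟩)
              · exact Or.inr h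
              · exact Or.inl h
              · exact absurd h htC
          rw [← h2]
          exact AC.cone _ s (fun x hx => (hLadj x hx.2).1.symm) h0
      · by_cases htC : t ∈ C
        · have h2 : insert t (C ∩ L') = C ∩ G.neighborSet v := by
            ext x
            rw [hN]
            constructor
            · rintro (h | h)
              · exact Or.inr (Or.inr ⟨h, htC⟩)
              · exact Or.inl h
            · rintro (h | ⟨-, h⟩ | ⟨h, -⟩)
              · exact Or.inr h
              · exact absurd h hsC
              · exact Or.inl h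
          rw [← h2]
          exact AC.cone _ t (fun x hx => (hLadj x hx.2).2.1.symm) h0
        · have h2 : C ∩ L' = C ∩ G.neighborSet v := by
            ext x
            rw [hN]
            constructor
            · exact Or.inl
            · rintro (h | ⟨-, h⟩ | ⟨-, h⟩)
              · exact h
              · exact absurd h hsC
              · exact absurd h htC
          rw [← h2]
          exact h0
    -- the inner induction
    obtain ⟨k, hk⟩ : ∃ k, (C \ A).ncard = k := ⟨_, rfl⟩
    induction k generalizing C with
    | zero =>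
      have hCA : C ⊆ A := by
        intro x hx
        by_contra hxA
        have h9 : (C \ A).Nonempty := ⟨x, hx, hxA⟩
        have h8 := (Set.ncard_pos (Set.toFinite _)).2 h9
        omega
      refine AC.top C (by omega) ?_ ?_
      · intro T hT hTC
        rw [← hF]
        refine Finset.card_le_card_of_injOn κ (fun x hx => hκ x (hCL (hTC hx))) ?_
        intro x hx y hy hxy
        by_contra hne
        exact hM.col x (hCL (hTC hx)) (hCA (hTC hx)) y (hCL (hTC hy)) (hCA (hTC hy)) (hT hx hy hne) hxy
      · intro _ _
        have h1 := her (m + 1) (G.induce L) (fun x => κ x.1) {x | x.1 ∈ A} F hF (fun x => hκ x.1 x.2) hM.toMid hO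
          {x | x.1 ∈ C} (m + 1) le_rfl
        rw [lv_sub] at h1
        have h2 : LV (G.induce C) (m + 1) := by
          refine lv_set ?_ h1
          ext x
          constructor
          · intro hx
            exact ⟨⟨x, hCL hx⟩, hx, rfl⟩
          · rintro ⟨⟨y, hy⟩, h5, rfl⟩
            exact h5
        exact h2 _ _
    | succ k ihk =>
      obtain ⟨v, hvC, hvA⟩ : (C \ A).Nonempty := by
        rw [← Set.ncard_pos (Set.toFinite _)]
        omega
      have hC0 : (C \ {v}) ⊆ L := fun x hx => hCL hx.1
      have h1 := ihk (C \ {v}) hC0 (by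
        have h2 : (C \ {v}) \ A = (C \ A) \ {v} := by
          ext x
          simp only [Set.mem_sdiff, Set.mem_singleton_iff]
          tauto
        have h9 : v ∈ C \ A := ⟨hvC, hvA⟩
        rw [h2, Set.ncard_sdiff_singleton_of_mem h9, hk]
        rfl)
      have h3 := AC.vert (C \ {v}) v (fun h => h.2 rfl) h1 (key v (hCL hvC) hvA (C \ {v}) hC0 (fun h => h.2 rfl))
      rw [Set.insert_diff_singleton, Set.insert_eq_of_mem hvC] at h3
      exact h3

/-- joins with graphs all of whose subgraphs have a vertex with at most two neighbours -/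
theorem ac_join {b : ℕ} (C : Set V) (hC : AC G b C) : ∀ (n : ℕ) (Γ : Set V), Γ.ncard = n → Disjoint Γ C →
    (∀ x ∈ Γ, ∀ y ∈ C, G.Adj x y) →
    (∀ D ⊆ Γ, D.Nonempty → ∃ v ∈ D, ∃ s t, ∀ x ∈ D, G.Adj v x → x = s ∨ x = t) → AC G (b + 1) (Γ ∪ C) := by
  classical
  intro n
  induction n with
  | zero =>
    intro Γ hn _ _ _
    rw [Set.ncard_eq_zero (Set.toFinite _)] at hn
    rw [hn, Set.empty_union]
    exact AC.up C hC
  | succ n ih =>
    intro Γ hn hd hadj hdeg
    have hne : Γ.Nonempty := by
      rw [← Set.ncard_pos (Set.toFinite _)]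
      omega
    obtain ⟨v, hv, s, t, hst⟩ := hdeg Γ (Set.Subset.refl _) hne
    have hvC : v ∉ C := fun h => Set.disjoint_left.1 hd hv h
    have h1 := ih (Γ \ {v}) (by rw [Set.ncard_sdiff_singleton_of_mem hv, hn]; rfl)
      (Disjoint.mono_left Set.diff_subset hd) (fun x hx => hadj x hx.1)
      fun D hD => hdeg D (hD.trans Set.diff_subset)
    have hU : Γ ∪ C = insert v ((Γ \ {v}) ∪ C) := by
      ext x
      simp only [Set.mem_union, Set.mem_insert_iff, Set.mem_sdiff, Set.mem_singleton_iff]
      constructor
      · rintro (h | h)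
        · by_cases e : x = v
          · exact Or.inl e
          · exact Or.inr (Or.inl ⟨h, e⟩)
        · exact Or.inr (Or.inr h)
      · rintro (h | ⟨h, -⟩ | h)
        · exact Or.inl (h ▸ hv)
        · exact Or.inl h
        · exact Or.inr h
    rw [hU]
    refine AC.vert _ v (fun h => ?_) h1 ?_
    · rcases h with h | h
      · exact h.2 rfl
      · exact hvC h
    -- the link
    have hL : ((Γ \ {v}) ∪ C) ∩ G.neighborSet v = {x | x ∈ Γ ∧ G.Adj v x} ∪ C := by
      ext x
      simp only [Set.mem_inter_iff, Set.mem_union, Set.mem_sdiff, Set.mem_singleton_iff, Set.mem_setOf_eq,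
        SimpleGraph.mem_neighborSet]
      constructor
      · rintro ⟨⟨h, -⟩ | h, h2⟩
        · exact Or.inl ⟨h, h2⟩
        · exact Or.inr h
      · rintro (⟨h, h2⟩ | h)
        · exact ⟨Or.inl ⟨h, fun e => h2.ne e.symm⟩, h2⟩
        · exact ⟨Or.inr h, hadj v hv x h⟩
    rw [hL]
    by_cases hs : s ∈ Γ ∧ G.Adj v s
    · by_cases ht : t ∈ Γ ∧ G.Adj v t
      · have e : {x | x ∈ Γ ∧ G.Adj v x} ∪ C = insert s (insert t C) := by
          ext x
          simp only [Set.mem_union, Set.mem_setOf_eq, Set.mem_insert_iff]
          constructor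
          · rintro (⟨h, h2⟩ | h)
            · rcases hst x h h2 with h3 | h3
              · exact Or.inl h3
              · exact Or.inr (Or.inl h3)
            · exact Or.inr (Or.inr h)
          · rintro (h | h | h)
            · exact Or.inl (h ▸ hs)
            · exact Or.inl (h ▸ ht)
            · exact Or.inr h
        rw [e]
        by_cases est : s = t
        · rw [← est, Set.insert_eq_of_mem (Set.mem_insert s C)]
          exact AC.cone C s (fun x hx => hadj s hs.1 x hx) hC
        · by_cases hadjst : G.Adj s t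
          · refine AC.cone _ s (fun x hx => ?_) (AC.cone C t (fun x hx => hadj t ht.1 x hx) hC)
            rcases hx with h | h
            · rw [h]; exact hadjst
            · exact hadj s hs.1 x h
          · exact AC.susp C s t est hadjst (fun x hx => ⟨hadj s hs.1 x hx, hadj t ht.1 x hx⟩) hC
      · have e : {x | x ∈ Γ ∧ G.Adj v x} ∪ C = insert s C := by
          ext x
          simp only [Set.mem_union, Set.mem_setOf_eq, Set.mem_insert_iff]
          constructor
          · rintro (⟨h, h2⟩ | h)
            · rcases hst x h h2 with h3 | h3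
              · exact Or.inl h3
              · exact absurd ⟨h3 ▸ h, h3 ▸ h2⟩ ht
            · exact Or.inr h
          · rintro (h | h)
            · exact Or.inl (h ▸ hs)
            · exact Or.inr h
        rw [e]
        exact AC.cone C s (fun x hx => hadj s hs.1 x hx) hC
    · by_cases ht : t ∈ Γ ∧ G.Adj v t
      · have e : {x | x ∈ Γ ∧ G.Adj v x} ∪ C = insert t C := by
          ext x
          simp only [Set.mem_union, Set.mem_setOf_eq, Set.mem_insert_iff]
          constructor
          · rintro (⟨h, h2⟩ | h)
            · rcases hst x h h2 with h3 | h3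
              · exact absurd ⟨h3 ▸ h, h3 ▸ h2⟩ hs
              · exact Or.inl h3
            · exact Or.inr h
          · rintro (h | h)
            · exact Or.inl (h ▸ ht)
            · exact Or.inr h
        rw [e]
        exact AC.cone C t (fun x hx => hadj t ht.1 x hx) hC
      · have e : {x | x ∈ Γ ∧ G.Adj v x} ∪ C = C := by
          ext x
          simp only [Set.mem_union, Set.mem_setOf_eq]
          constructor
          · rintro (⟨h, h2⟩ | h)
            · rcases hst x h h2 with h3 | h3
              · exact absurd ⟨h3 ▸ h, h3 ▸ h2⟩ hs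
              · exact absurd ⟨h3 ▸ h, h3 ▸ h2⟩ ht
            · exact h
          · exact Or.inr
        rw [e]
        exact hC

end Run7.h709.AC
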