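import Pool.Agent.Run7.h709.AC.Ex
import Pool.Agent.R781.VS.QSplit
import Pool.Agent.R782.Bal.Lnk

/-!
# The class `AC`: sets with suspension links
-/

set_option autoImplicit false
set_option linter.unusedSectionVars false

noncomputable section

namespace Run7.h709.AC

open Pool.Agent.W907.SG Pool.Agent.W907.SM Pool.Agent.R782.Bal
open Pool.Agent.N496.CV (MidL)
open Pool.Agent.TH652.Above (lv_set lv_sub lv_univ)
open Pool.Agent.R781.VS (lv_del)

/-- sets with cliques of at most `r` vertices, and sets obtained by adding vertices whose links are suspensions -/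
inductive SC {V : Type} (G : SimpleGraph V) : ℕ → Set V → Prop
  | base {r : ℕ} (C : Set V) : (∀ T : Finset V, G.IsClique (T : Set V) → (T : Set V) ⊆ C → T.card ≤ r) → SC G r C
  | mid {r : ℕ} (C C' : Set V) (v s t : V) : v ∉ C → SC G (r + 1) C → s ≠ t → ¬ G.Adj s t →
      (∀ x ∈ C', G.Adj s x ∧ G.Adj t x) → C ∩ G.neighborSet v = insert s (insert t C') → SC G r C' →
      SC G (r + 1) (insert v C)

theorem SC.ac {V : Type} {G : SimpleGraph V} {r : ℕ} {C : Set V} (h : SC G r C) : AC G (r + 1) C := by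
  induction h with
  | base C h => exact AC.small C (by omega) fun T h1 h2 => Nat.lt_succ_of_le (h T h1 h2)
  | mid C C' v s t hv _ hst hn hx hC _ ih1 ih2 =>
    refine AC.vert C v hv ih1 ?_
    rw [hC]
    exact AC.susp C' s t hst hn hx ih2

variable {V : Type} [Finite V] {G : SimpleGraph V}

/-- coloured sets with subdivided monochromatic edges -/
theorem sc_mid (κ : V → ℕ) (A : Set V) (m : ℕ) :
    ∀ (L : Set V) (F : Finset ℕ), F.card ≤ m → (∀ v ∈ L, κ v ∈ F) → MidL G κ A L → SC G m L := by
  classical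
  induction m with
  | zero =>
    intro L F hF hκ _
    refine SC.base L fun T _ hT => ?_
    have h0 : F = ∅ := Finset.card_eq_zero.1 (Nat.le_zero.1 hF)
    have h1 : T = ∅ := by
      rw [Finset.eq_empty_iff_forall_notMem]
      intro x hx
      have := hκ x (hT hx)
      rw [h0] at this
      exact Finset.notMem_empty _ this
    rw [h1, Finset.card_empty]
  | succ m ih =>
    intro L F hF hκ hM
    obtain ⟨k, hk⟩ : ∃ k, (L \ A).ncard = k := ⟨_, rfl⟩
    induction k generalizing L with
    | zero =>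
      have hCA : L ⊆ A := by
        intro x hx
        by_contra hxA
        have h9 : (L \ A).Nonempty := ⟨x, hx, hxA⟩
        have h8 := (Set.ncard_pos (Set.toFinite _)).2 h9
        omega
      refine SC.base L fun T hT hTC => ?_
      refine le_trans ?_ hF
      refine Finset.card_le_card_of_injOn κ (fun x hx => hκ x (hTC hx)) ?_
      intro x hx y hy hxy
      by_contra hne
      exact hM.col x (hTC hx) (hCA (hTC hx)) y (hTC hy) (hCA (hTC hy)) (hT hx hy hne) hxy
    | succ k ihk =>
      obtain ⟨v, hvL, hvA⟩ : (L \ A).Nonempty := by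
        rw [← Set.ncard_pos (Set.toFinite _)]
        omega
      -- removing `v`
      have hM0 : MidL G κ A (L \ {v}) := by
        refine ⟨fun x hx hxA y hy hyA hxy => hM.col x hx.1 hxA y hy.1 hyA hxy, fun x hx hxA => ?_⟩
        obtain ⟨s', hs'L, hs'A, t', ht'L, ht'A, hst', hnst', hxs, hxt, hκs', hκt', hL''⟩ := hM.mid x hx.1 hxA
        exact ⟨s', ⟨hs'L, fun e => hvA (e ▸ hs'A)⟩, hs'A, t', ⟨ht'L, fun e => hvA (e ▸ ht'A)⟩, ht'A, hst', hnst', hxs,
          hxt, hκs', hκt', fun y hy hxy hys hyt => hL'' y hy.1 hxy hys hyt⟩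
      have h1 := ihk (L \ {v}) (fun x hx => hκ x hx.1) hM0 (by
        have h2 : (L \ {v}) \ A = (L \ A) \ {v} := by
          ext x
          simp only [Set.mem_sdiff, Set.mem_singleton_iff]
          tauto
        have h9 : v ∈ L \ A := ⟨hvL, hvA⟩
        rw [h2, Set.ncard_sdiff_singleton_of_mem h9, hk]
        rfl)
      -- the link of `v`
      obtain ⟨s, hsL, hsA, t, htL, htA, hst, hnst, hvs, hvt, hκs, hκt, hLv⟩ := hM.mid v hvL hvA
      obtain ⟨L', hLd⟩ : ∃ L' : Set V, L' = {x | x ∈ L ∧ G.Adj v x ∧ x ≠ s ∧ x ≠ t} := ⟨_, rfl⟩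
      have hmem : ∀ x, x ∈ L' ↔ x ∈ L ∧ G.Adj v x ∧ x ≠ s ∧ x ≠ t := fun x => by rw [hLd]; rfl
      have hLadj : ∀ x ∈ L', G.Adj x s ∧ G.Adj x t ∧ κ x ≠ κ v := by
        intro x hx
        obtain ⟨h0, h1, h2, h3⟩ := (hmem x).1 hx
        exact hLv x h0 h1 h2 h3
      have hL'L : L' ⊆ L := fun x hx => ((hmem x).1 hx).1
      have hM' : MidL G κ A L' := by
        refine ⟨fun x hx hxA y hy hyA hxy => hM.col x (hL'L hx) hxA y (hL'L hy) hyA hxy, fun x hx hxA => ?_⟩
        obtain ⟨s', hs'L, hs'A, t', ht'L, ht'A, hst', hnst', hxs, hxt, hκs', hκt', hL''⟩ := hM.mid x (hL'L hx) hxA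
        have hxL := (hmem x).1 hx
        have h1 := hL'' v hvL hxL.2.1.symm (fun e => hvA (e ▸ hs'A)) (fun e => hvA (e ▸ ht'A))
        have h2 := (hLadj x hx).2.2
        have m1 : s' ∈ L' := (hmem s').2 ⟨hs'L, h1.1, fun e => h2 (by rw [← hκs', e, hκs]),
          fun e => h2 (by rw [← hκs', e, hκt])⟩
        have m2 : t' ∈ L' := (hmem t').2 ⟨ht'L, h1.2.1, fun e => h2 (by rw [← hκt', e, hκs]),
          fun e => h2 (by rw [← hκt', e, hκt])⟩
        exact ⟨s', m1, hs'A, t', m2, ht'A, hst', hnst', hxs, hxt, hκs', hκt',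
          fun y hy hxy hys hyt => hL'' y (hL'L hy) hxy hys hyt⟩
      have hF' : (F.erase (κ v)).card ≤ m := by
        rw [Finset.card_erase_of_mem (hκ v hvL)]
        omega
      have hκ' : ∀ x ∈ L', κ x ∈ F.erase (κ v) := fun x hx =>
        Finset.mem_erase.2 ⟨(hLadj x hx).2.2, hκ x (hL'L hx)⟩
      have h0 := ih L' (F.erase (κ v)) hF' hκ' hM'
      have h3 := SC.mid (L \ {v}) L' v s t (fun h => h.2 rfl) h1 hst hnst
        (fun x hx => ⟨(hLadj x hx).1.symm, (hLadj x hx).2.1.symm⟩) (by
          ext x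
          simp only [Set.mem_inter_iff, Set.mem_sdiff, Set.mem_singleton_iff, SimpleGraph.mem_neighborSet,
            Set.mem_insert_iff]
          rw [hmem]
          constructor
          · rintro ⟨⟨h5, -⟩, h6⟩
            by_cases e1 : x = s
            · exact Or.inl e1
            by_cases e2 : x = t
            · exact Or.inr (Or.inl e2)
            exact Or.inr (Or.inr ⟨h5, h6, e1, e2⟩)
          · rintro (rfl | rfl | ⟨h5, h6, -, -⟩)
            · exact ⟨⟨hsL, hvs.ne.symm⟩, hvs⟩
            · exact ⟨⟨htL, hvt.ne.symm⟩, hvt⟩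
            · exact ⟨⟨h5, h6.ne.symm⟩, h6⟩) h0
      rw [Set.insert_diff_singleton, Set.insert_eq_of_mem hvL] at h3
      exact h3

/-- joins of a set without `ℓ²`-homology and a set of the class `SC` -/
theorem sc_join {p : ℕ} (hp : 1 ≤ p) (B : Set V)
    (hB : ∀ T : Finset V, G.IsClique (T : Set V) → (T : Set V) ⊆ B → T.card ≤ p)
    (hLV : ∀ i, LV (G.induce B) i) {r : ℕ} {C : Set V} (h : SC G r C) (hBC : ∀ x ∈ B, ∀ y ∈ C, G.Adj x y) :
    AC G (p + r) (B ∪ C) := by
  classical
  induction h with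
  | @base r C h =>
    refine AC.top (B ∪ C) (by omega) ?_ ?_
    · intro T hT hTC
      have h1 : (T.filter (fun x => x ∈ B)).card ≤ p := hB _ (hT.subset fun x hx => by
        rw [Finset.mem_coe, Finset.mem_filter] at hx
        exact hx.1) fun x hx => by
        rw [Finset.mem_coe, Finset.mem_filter] at hx
        exact hx.2
      have h2 : (T.filter (fun x => ¬ x ∈ B)).card ≤ r := h _ (hT.subset fun x hx => by
        rw [Finset.mem_coe, Finset.mem_filter] at hx
        exact hx.1) fun x hx => by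
        rw [Finset.mem_coe, Finset.mem_filter] at hx
        exact (hTC hx.1).resolve_left hx.2
      have h3 := Finset.card_filter_add_card_filter_not (s := T) (fun x => x ∈ B)
      omega
    · intro _ _
      exact lv_join_set G (B ∪ C) B Set.subset_union_left (fun x hx w hw hwB => (hBC x hx w (hw.resolve_left hwB)).symm)
        hLV (p + r) _ _
  | @mid r C C' v s t hv _ hst hn hx hC _ ih1 ih2 =>
    have hvB : v ∉ B := fun h => (hBC v h v (Set.mem_insert v C)).ne rfl
    have hs : s ∈ C ∩ G.neighborSet v := by rw [hC]; exact Set.mem_insert _ _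
    have ht : t ∈ C ∩ G.neighborSet v := by rw [hC]; exact Set.mem_insert_of_mem _ (Set.mem_insert _ _)
    have hC' : ∀ x ∈ C', x ∈ C ∩ G.neighborSet v := fun x hx => by
      rw [hC]; exact Set.mem_insert_of_mem _ (Set.mem_insert_of_mem _ hx)
    have e : B ∪ insert v C = insert v (B ∪ C) := by
      ext x
      simp only [Set.mem_union, Set.mem_insert_iff]
      tauto
    rw [e]
    refine AC.vert (b := p + r) (B ∪ C) v (fun h => h.elim hvB hv)
      (ih1 fun x hx y hy => hBC x hx y (Set.mem_insert_of_mem _ hy)) ?_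
    have e2 : (B ∪ C) ∩ G.neighborSet v = insert s (insert t (B ∪ C')) := by
      ext x
      constructor
      · rintro ⟨h1 | h1, h2⟩
        · exact Or.inr (Or.inr (Or.inl h1))
        · have h3 : x ∈ C ∩ G.neighborSet v := ⟨h1, h2⟩
          rw [hC] at h3
          rcases h3 with h3 | h3 | h3
          · exact Or.inl h3
          · exact Or.inr (Or.inl h3)
          · exact Or.inr (Or.inr (Or.inr h3))
      · rintro (h1 | h1 | h1 | h1)
        · rw [h1]; exact ⟨Or.inr hs.1, hs.2⟩
        · rw [h1]; exact ⟨Or.inr ht.1, ht.2⟩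
        · exact ⟨Or.inl h1, (hBC x h1 v (Set.mem_insert v C)).symm⟩
        · exact ⟨Or.inr (hC' x h1).1, (hC' x h1).2⟩
    rw [e2]
    refine AC.susp (B ∪ C') s t hst hn ?_ (ih2 fun x hx y hy => hBC x hx y (Set.mem_insert_of_mem _ (hC' y hy).1))
    rintro x (h1 | h1)
    · exact ⟨(hBC x h1 s (Set.mem_insert_of_mem _ hs.1)).symm, (hBC x h1 t (Set.mem_insert_of_mem _ ht.1)).symm⟩
    · exact hx x h1

/-- adding an independent set of vertices -/
theorem add_all {b : ℕ} (C : Set V) (hC : AC G (b + 1) C) (D : Set V) (hCD : ∀ v ∈ D, v ∉ C)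
    (hD : ∀ u ∈ D, ∀ v ∈ D, ¬ G.Adj u v) (hL : ∀ v ∈ D, AC G b (C ∩ G.neighborSet v)) : AC G (b + 1) (C ∪ D) := by
  classical
  induction D, Set.toFinite D using Set.Finite.induction_on with
  | empty => rw [Set.union_empty]; exact hC
  | @insert v D hv _ ih =>
    have h1 := ih (fun u hu => hCD u (Set.mem_insert_of_mem _ hu))
      (fun u hu w hw => hD u (Set.mem_insert_of_mem _ hu) w (Set.mem_insert_of_mem _ hw))
      (fun u hu => hL u (Set.mem_insert_of_mem _ hu))
    have e : C ∪ insert v D = insert v (C ∪ D) := by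
      ext x
      simp only [Set.mem_union, Set.mem_insert_iff]
      tauto
    rw [e]
    refine AC.vert (C ∪ D) v (fun h => h.elim (hCD v (Set.mem_insert _ _)) hv) h1 ?_
    have e2 : (C ∪ D) ∩ G.neighborSet v = C ∩ G.neighborSet v := by
      ext x
      constructor
      · rintro ⟨h2 | h2, h3⟩
        · exact ⟨h2, h3⟩
        · exact absurd h3 (hD v (Set.mem_insert _ _) x (Set.mem_insert_of_mem _ h2))
      · rintro ⟨h2, h3⟩
        exact ⟨Or.inl h2, h3⟩
    rw [e2]
    exact hL v (Set.mem_insert _ _)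

/-- removing an independent set of vertices -/
theorem lv_dels (C : Set V) (i : ℕ) (D : Set V) (hC : LV (G.induce (C ∪ D)) i) (hCD : ∀ v ∈ D, v ∉ C)
    (hD : ∀ u ∈ D, ∀ v ∈ D, ¬ G.Adj u v) (hL : ∀ v ∈ D, LV (G.induce (C ∩ G.neighborSet v)) i) :
    LV (G.induce C) i := by
  classical
  induction D, Set.toFinite D using Set.Finite.induction_on with
  | empty => rw [Set.union_empty] at hC; exact hC
  | @insert v D hv _ ih =>
    refine ih ?_ (fun u hu => hCD u (Set.mem_insert_of_mem _ hu))
      (fun u hu w hw => hD u (Set.mem_insert_of_mem _ hu) w (Set.mem_insert_of_mem _ hw))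
      (fun u hu => hL u (Set.mem_insert_of_mem _ hu))
    have e : C ∪ insert v D = insert v (C ∪ D) := by
      ext x
      simp only [Set.mem_union, Set.mem_insert_iff]
      tauto
    rw [e] at hC
    refine lv_del G (C ∪ D) v (fun h => h.elim (hCD v (Set.mem_insert _ _)) hv) i hC ?_
    have e2 : (C ∪ D) ∩ G.neighborSet v = C ∩ G.neighborSet v := by
      ext x
      constructor
      · rintro ⟨h2 | h2, h3⟩
        · exact ⟨h2, h3⟩
        · exact absurd h3 (hD v (Set.mem_insert _ _) x (Set.mem_insert_of_mem _ h2))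
      · rintro ⟨h2, h3⟩
        exact ⟨Or.inl h2, h3⟩
    rw [e2]
    exact hL v (Set.mem_insert _ _)

end Run7.h709.AC
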